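import Pool.Agent.H27.Sch.Flo

/-! Lifting a collar to an immersed ball. -/

set_option autoImplicit false
set_option linter.unusedSectionVars false

open scoped Topology ContDiff Manifold RealInnerProductSpace
open Set Metric Filter Function

noncomputable section

namespace Pool.Agent.H27.Sch

variable {E : Type} [NormedAddCommGroup E] [InnerProductSpace ℝ E] [FiniteDimensional ℝ E]

/-- the closed shell -/
def Sh (E : Type) [NormedAddCommGroup E] (r : ℝ) : Set E := {y : E | r ≤ ‖y‖ ∧ ‖y‖ ≤ 1}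

lemma inj_iff (A : E →L[ℝ] E) : Injective A ↔ ∃ e : E ≃L[ℝ] E, (e : E →L[ℝ] E) = A := by
  constructor
  · intro h
    refine ⟨(LinearEquiv.ofInjectiveEndo (A : E →ₗ[ℝ] E) h).toContinuousLinearEquiv, ?_⟩
    ext x
    rfl
  · rintro ⟨e, rfl⟩
    exact e.injective

lemma isOpen_injOp : IsOpen {A : E →L[ℝ] E | Injective A} := by
  have : {A : E →L[ℝ] E | Injective A} = range ((↑) : (E ≃L[ℝ] E) → (E →L[ℝ] E)) := by
    ext A
    exact inj_iff A
  rw [this]
  exact ContinuousLinearEquiv.isOpen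

lemma isOpen_inj {G : E → E} (hG : ContDiff ℝ ∞ G) : IsOpen {z | Injective (fderiv ℝ G z)} :=
  isOpen_injOp.preimage (hG.continuous_fderiv (by simp))

/-- local inverse, in the form of local injectivity -/
lemma inj_near {G : E → E} {z : E} (hG : ContDiffAt ℝ ∞ G z) (hz : Injective (fderiv ℝ G z)) :
    ∃ U ∈ 𝓝 z, InjOn G U := by
  obtain ⟨e, he⟩ := (inj_iff _).1 hz
  have h1 : HasStrictFDerivAt G (e : E →L[ℝ] E) z := by
    rw [he]
    exact hG.hasStrictFDerivAt (by simp)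
  exact ⟨_, (h1.toOpenPartialHomeomorph G).open_source.mem_nhds
    h1.mem_toOpenPartialHomeomorph_source, (h1.toOpenPartialHomeomorph G).injOn⟩

/-- the cut off inverse of the differential -/
def AA (b : E → ℝ) (G : E → E) (z : E) : E →L[ℝ] E :=
  b z • ContinuousLinearMap.inverse (fderiv ℝ G z)

lemma AA_smooth {b : E → ℝ} (hb : ContDiff ℝ ∞ b) {R : ℝ} (hb0 : ∀ z, R ≤ ‖z‖ → b z = 0)
    {G : E → E} (hG : ContDiff ℝ ∞ G) (hGi : ∀ z, ‖z‖ ≤ R → Injective (fderiv ℝ G z)) :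
    ContDiff ℝ ∞ (AA b G) := by
  rw [contDiff_iff_contDiffAt]
  intro z
  rcases le_or_gt ‖z‖ R with h | h
  · obtain ⟨e, he⟩ := (inj_iff _).1 (hGi z h)
    have h1 : ContDiffAt ℝ ∞ (ContinuousLinearMap.inverse : (E →L[ℝ] E) → (E →L[ℝ] E))
        (fderiv ℝ G z) := by
      rw [← he]
      exact contDiffAt_map_inverse e
    exact hb.contDiffAt.smul (h1.comp z (hG.fderiv_right (m := ∞) (by simp)).contDiffAt)
  · refine (contDiffAt_const (c := (0 : E →L[ℝ] E))).congr_of_eventuallyEq ?_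
    filter_upwards [continuous_norm.continuousAt.eventually_const_lt h] with y hy
    simp only [AA]
    rw [hb0 y hy.le, zero_smul]

lemma AA_apply {b : E → ℝ} {R : ℝ} (hb0 : ∀ z, R ≤ ‖z‖ → b z = 0)
    {G : E → E} (hGi : ∀ z, ‖z‖ ≤ R → Injective (fderiv ℝ G z)) (z v : E) :
    fderiv ℝ G z (AA b G z v) = b z • v := by
  simp only [AA, _root_.smul_apply, map_smul]
  rcases le_or_gt ‖z‖ R with h | h
  · obtain ⟨e, he⟩ := (inj_iff _).1 (hGi z h)
    rw [← he, ContinuousLinearMap.inverse_equiv]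
    congr 1
    exact e.apply_symm_apply v
  · rw [hb0 z h.le, zero_smul, zero_smul]

/-- the field on the product -/
def ZZ (b₁ b₂ : E → ℝ) (G H : E → E) (p : E × E) : E × E :=
  (-((b₂ p.1 * b₁ p.2) • p.1), -(b₂ p.1 • AA b₁ G p.2 (fderiv ℝ H p.1 p.1)))

section

variable {b₁ b₂ : E → ℝ} {G H : E → E} {R : ℝ} {Fl : ℝ → E × E → E × E}

lemma ZZ_smooth (hb₁ : ContDiff ℝ ∞ b₁) (hb₂ : ContDiff ℝ ∞ b₂) (hb0 : ∀ z, R ≤ ‖z‖ → b₁ z = 0)
    (hG : ContDiff ℝ ∞ G) (hH : ContDiff ℝ ∞ H) (hGi : ∀ z, ‖z‖ ≤ R → Injective (fderiv ℝ G z)) :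
    ContDiff ℝ ∞ (ZZ b₁ b₂ G H) := by
  unfold ZZ
  have h1 : ContDiff ℝ ∞ (fun p : E × E => p.1) := contDiff_fst
  have h2 : ContDiff ℝ ∞ (fun p : E × E => p.2) := contDiff_snd
  have h3 : ContDiff ℝ ∞ (fun p : E × E => AA b₁ G p.2) := (AA_smooth hb₁ hb0 hG hGi).comp h2
  have h4 : ContDiff ℝ ∞ (fun p : E × E => fderiv ℝ H p.1 p.1) :=
    ((hH.fderiv_right (m := ∞) (by simp)).comp h1).clm_apply h1
  exact (((hb₂.comp h1).mul (hb₁.comp h2)).smul h1).neg.prodMk
    ((hb₂.comp h1).smul (h3.clm_apply h4)).neg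

/-- the conserved quantity -/
lemma conserved (h : GFlow (ZZ b₁ b₂ G H) Fl) (hb0 : ∀ z, R ≤ ‖z‖ → b₁ z = 0)
    (hG : ContDiff ℝ ∞ G) (hH : ContDiff ℝ ∞ H) (hGi : ∀ z, ‖z‖ ≤ R → Injective (fderiv ℝ G z))
    (p : E × E) (hp : G p.2 = H p.1) (t : ℝ) : G (Fl t p).2 = H (Fl t p).1 := by
  have h1 : ∀ t, HasDerivAt (fun t => G (Fl t p).2 - H (Fl t p).1) 0 t := by
    intro t
    have h2 := h.deriv p t
    have h3 : HasDerivAt (fun t => (Fl t p).1) (ZZ b₁ b₂ G H (Fl t p)).1 t := h2.fst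
    have h4 : HasDerivAt (fun t => (Fl t p).2) (ZZ b₁ b₂ G H (Fl t p)).2 t := h2.snd
    have h5 := (hG.differentiable (by simp) (Fl t p).2).hasFDerivAt.comp_hasDerivAt t h4
    have h6 := (hH.differentiable (by simp) (Fl t p).1).hasFDerivAt.comp_hasDerivAt t h3
    refine (h5.sub h6).congr_deriv ?_
    simp only [ZZ, map_neg, map_smul, AA_apply hb0 hGi, smul_smul, sub_self]
  have h2 : ∀ t, deriv (fun t => G (Fl t p).2 - H (Fl t p).1) t = 0 := fun t => (h1 t).deriv
  have h3 := is_const_of_deriv_eq_zero (fun t => (h1 t).differentiableAt) h2 t 0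
  simp only [h.zero, hp, sub_self] at h3
  exact sub_eq_zero.1 h3

/-- the first component -/
lemma fst_eq (h : GFlow (ZZ b₁ b₂ G H) Fl) (hb₁n : ∀ z, 0 ≤ b₁ z) (hb₂n : ∀ z, 0 ≤ b₂ z)
    (hb₂1 : ∀ z, ‖z‖ ≤ 1 → b₂ z = 1) {x z : E} (hx : ‖x‖ ≤ 1) {T : ℝ}
    (hz : ∀ t ∈ Icc 0 T, b₁ (Fl t (x, z)).2 = 1) :
    ∀ t ∈ Icc 0 T, (Fl t (x, z)).1 = Real.exp (-t) • x := by
  set u : ℝ → E := fun t => (Fl t (x, z)).1 with hu
  have hud : ∀ t, HasDerivAt u (-((b₂ (u t) * b₁ (Fl t (x, z)).2) • u t)) t := fun t =>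
    (h.deriv (x, z) t).fst
  have hanti : AntitoneOn (fun t => ‖u t‖ ^ 2) (Ici 0) := by
    apply antitoneOn_of_deriv_nonpos (convex_Ici 0)
    · exact fun t _ => ((hud t).norm_sq).continuousAt.continuousWithinAt
    · exact fun t _ => ((hud t).norm_sq).differentiableAt.differentiableWithinAt
    · intro t _
      rw [((hud t).norm_sq).deriv, inner_neg_right, inner_smul_right, real_inner_self_eq_norm_sq]
      have := mul_nonneg (mul_nonneg (hb₂n (u t)) (hb₁n (Fl t (x, z)).2)) (sq_nonneg ‖u t‖)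
      linarith
  have hle : ∀ t, 0 ≤ t → ‖u t‖ ≤ 1 := by
    intro t ht
    have h1 := hanti (mem_Ici.2 le_rfl) (mem_Ici.2 ht) ht
    simp only [hu, h.zero] at h1
    have h2 : ‖(Fl t (x, z)).1‖ ≤ ‖x‖ := le_of_sq_le_sq h1 (norm_nonneg _)
    exact h2.trans hx
  have hlip : LipschitzWith 1 (fun v : E => -v) := by
    refine LipschitzWith.of_dist_le_mul fun a b => ?_
    rw [dist_neg_neg]
    simp
  have hunq := ODE_solution_unique (v := fun _ v => -v) (f := u)
    (g := fun t => Real.exp (-t) • x) (a := 0) (b := T) (K := 1) (fun _ => hlip)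
    (fun t _ => (hud t).continuousAt.continuousWithinAt)
    (fun t ht => by
      have h1 := (hud t).hasDerivWithinAt (s := Ici t)
      rw [hz t ⟨ht.1, ht.2.le⟩, hb₂1 _ (hle t ht.1), mul_one, one_smul] at h1
      exact h1)
    (fun t _ => by
      have : ContinuousAt (fun t : ℝ => Real.exp (-t) • x) t := by fun_prop
      exact this.continuousWithinAt)
    (fun t _ => by
      have h1 : HasDerivAt (fun t : ℝ => Real.exp (-t) • x) (-(Real.exp (-t) • x)) t := by
        have := ((hasDerivAt_neg t).exp).smul_const x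
        refine this.congr_deriv ?_
        rw [mul_neg, mul_one, neg_smul]
      exact h1.hasDerivWithinAt)
    (by simp [hu, h.zero])
  exact fun t ht => hunq ht

end

/-- the lifted collar -/
def cc (Fl : ℝ → E × E → E × E) (y : E) : E :=
  if 1 ≤ ‖y‖ then y else (Fl (-Real.log ‖y‖) (‖y‖⁻¹ • y, ‖y‖⁻¹ • y)).2

theorem exists_collar {G H : E → E} (hG : ContDiff ℝ ∞ G) (hH : ContDiff ℝ ∞ H)
    (hGi : ∀ x, ‖x‖ ≤ 1 → Injective (fderiv ℝ G x)) {a : ℝ} (ha : 0 < a) (ha1 : a < 1)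
    (haG : ∀ x, |‖x‖ - 1| < a → G x = H x) {r₀ : ℝ} (hr₀ : 0 < r₀)
    (hHi : ∀ x ∈ Sh E r₀, Injective (fderiv ℝ H x)) :
    ∃ c : E → E, (∀ y, 1 - a < ‖y‖ → c y = y) ∧ ContinuousOn c {y | 0 < ‖y‖} ∧
      ∀ y ∈ Sh E r₀, (∀ s ∈ Icc ‖y‖ 1, ‖c ((s / ‖y‖) • y)‖ ≤ 1) →
        ContDiffAt ℝ ∞ c y ∧ Injective (fderiv ℝ c y) ∧ ∀ᶠ z in 𝓝 y, G (c z) = H z := by
  -- the radius
  obtain ⟨R, hR1, hR⟩ : ∃ R > 1, ∀ z : E, ‖z‖ ≤ R → Injective (fderiv ℝ G z) := by
    have hK : IsCompact (closedBall (0:E) 1) := isCompact_closedBall 0 1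
    obtain ⟨δ, hδ, hδ'⟩ := hK.exists_cthickening_subset_open (isOpen_inj hG) (fun x hx =>
      hGi x (by simpa using hx))
    refine ⟨1 + δ, by linarith, fun z hz => hδ' ?_⟩
    rw [cthickening_closedBall hδ.le zero_le_one, mem_closedBall_zero_iff]
    linarith
  let B₁ : ContDiffBump (0:E) := ⟨(1 + R) / 2, R, by linarith, by linarith⟩
  let B₂ : ContDiffBump (0:E) := ⟨1, 2, one_pos, by norm_num⟩
  set b₁ : E → ℝ := fun z => B₁ z with hb₁
  set b₂ : E → ℝ := fun z => B₂ z with hb₂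
  have hb₁s : ContDiff ℝ ∞ b₁ := B₁.contDiff
  have hb₂s : ContDiff ℝ ∞ b₂ := B₂.contDiff
  have hb₁n : ∀ z, 0 ≤ b₁ z := fun z => B₁.nonneg
  have hb₂n : ∀ z, 0 ≤ b₂ z := fun z => B₂.nonneg
  have hb₁0 : ∀ z, R ≤ ‖z‖ → b₁ z = 0 := fun z hz => B₁.zero_of_le_dist (by simpa using hz)
  have hb₂0 : ∀ z, 2 ≤ ‖z‖ → b₂ z = 0 := fun z hz => B₂.zero_of_le_dist (by simpa using hz)
  have hb₁1 : ∀ z, ‖z‖ ≤ (1 + R) / 2 → b₁ z = 1 := fun z hz =>
    B₁.one_of_mem_closedBall (by simpa using hz)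
  have hb₂1 : ∀ z, ‖z‖ ≤ 1 → b₂ z = 1 := fun z hz => B₂.one_of_mem_closedBall (by simpa using hz)
  obtain ⟨Fl, hFl⟩ := exists_gflow (ZZ_smooth (H := H) hb₁s hb₂s hb₁0 hG hH hR)
    (K := closedBall (0:E) 2 ×ˢ closedBall (0:E) R)
    ((isCompact_closedBall _ _).prod (isCompact_closedBall _ _)) (by
      rintro ⟨x, z⟩ hxz
      rw [mem_prod, not_and_or, mem_closedBall_zero_iff, mem_closedBall_zero_iff, not_le,
        not_le] at hxz
      simp only [ZZ, AA]
      rcases hxz with h | h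
      · rw [hb₂0 x h.le]; simp
      · rw [hb₁0 z h.le]; simp)
  -- near the sphere
  have hnear : ∀ y : E, 1 - a < ‖y‖ → ‖y‖ ≤ 1 →
      (Fl (-Real.log ‖y‖) (‖y‖⁻¹ • y, ‖y‖⁻¹ • y)).2 = y := by
    intro y hy1 hy2
    have hy0 : 0 < ‖y‖ := by linarith
    set x : E := ‖y‖⁻¹ • y with hx
    have hx1 : ‖x‖ = 1 := by rw [hx, norm_smul, norm_inv, norm_norm, inv_mul_cancel₀ hy0.ne']
    set T := -Real.log ‖y‖ with hT
    have hT0 : 0 ≤ T := by
      rw [hT, neg_nonneg]; exact Real.log_nonpos hy0.le hy2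
    have hexpT : Real.exp (-T) = ‖y‖ := by rw [hT, neg_neg, Real.exp_log hy0]
    have hg : ∀ t : ℝ, HasDerivAt (fun t : ℝ => (Real.exp (-t) • x, Real.exp (-t) • x))
        (-(Real.exp (-t) • x), -(Real.exp (-t) • x)) t := by
      intro t
      have h1 : HasDerivAt (fun t : ℝ => Real.exp (-t) • x) (-(Real.exp (-t) • x)) t := by
        have := ((hasDerivAt_neg t).exp).smul_const x
        refine this.congr_deriv ?_
        rw [mul_neg, mul_one, neg_smul]
      exact h1.prodMk h1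
    have h1 := hFl.uniq (γ := fun t : ℝ => (Real.exp (-t) • x, Real.exp (-t) • x)) (T := T)
      (fun t _ => (hg t).continuousAt.continuousWithinAt) (fun t ht => by
        refine (hg t).hasDerivWithinAt.congr_deriv ?_
        have hn : ‖Real.exp (-t) • x‖ = Real.exp (-t) := by
          rw [norm_smul, Real.norm_eq_abs, abs_of_pos (Real.exp_pos _), hx1, mul_one]
        have hle : Real.exp (-t) ≤ 1 := by
          rw [Real.exp_le_one_iff]; linarith [ht.1]
        have hge : ‖y‖ ≤ Real.exp (-t) := by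
          rw [← hexpT, Real.exp_le_exp]; linarith [ht.2]
        have e1 : b₁ (Real.exp (-t) • x) = 1 := hb₁1 _ (by rw [hn]; linarith)
        have e2 : b₂ (Real.exp (-t) • x) = 1 := hb₂1 _ (by rw [hn]; exact hle)
        set w := Real.exp (-t) • x with hw
        have e3 : fderiv ℝ H w = fderiv ℝ G w := by
          apply Filter.EventuallyEq.fderiv_eq
          have h5 : ∀ᶠ v in 𝓝 w, |‖v‖ - 1| < a := by
            have h6 : ContinuousAt (fun v : E => |‖v‖ - 1|) w := by fun_prop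
            refine h6.eventually_lt_const ?_
            show |‖w‖ - 1| < a
            rw [hn, abs_lt]
            constructor <;> linarith
          filter_upwards [h5] with v hv
          exact (haG v hv).symm
        have e4 : AA b₁ G w (fderiv ℝ H w w) = w := by
          apply hR w (by rw [hn]; linarith)
          rw [AA_apply hb₁0 hR, e1, one_smul, e3]
        simp only [ZZ]
        rw [e1, e2, mul_one, one_smul, one_smul, e4]) T ⟨hT0, le_rfl⟩
    simp only [neg_zero, Real.exp_zero, one_smul] at h1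
    rw [h1, hexpT, hx, smul_smul, mul_inv_cancel₀ hy0.ne', one_smul]
  have hcc : ∀ y : E, 1 - a < ‖y‖ → cc Fl y = y := by
    intro y hy
    unfold cc
    split_ifs with h
    · rfl
    · exact hnear y hy (not_le.1 h).le
  -- smoothness of the formula
  have hsm : ∀ y : E, 0 < ‖y‖ → ContDiffAt ℝ ∞
      (fun y : E => (Fl (-Real.log ‖y‖) (‖y‖⁻¹ • y, ‖y‖⁻¹ • y)).2) y := by
    intro y hy
    have hy0 : y ≠ 0 := norm_pos_iff.1 hy
    have h1 : ContDiffAt ℝ ∞ (fun y : E => ‖y‖) y := contDiffAt_norm ℝ hy0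
    have h2 : ContDiffAt ℝ ∞ (fun y : E => ‖y‖⁻¹ • y) y := (h1.inv hy.ne').smul contDiffAt_id
    have h3 : ContDiffAt ℝ ∞ (fun y : E => (-Real.log ‖y‖, (‖y‖⁻¹ • y, ‖y‖⁻¹ • y))) y :=
      ((h1.log hy.ne').neg).prodMk (h2.prodMk h2)
    exact contDiffAt_snd.comp y (hFl.smooth.contDiffAt.comp y h3)
  have hlt : ∀ y : E, ‖y‖ < 1 → cc Fl =ᶠ[𝓝 y]
      fun y : E => (Fl (-Real.log ‖y‖) (‖y‖⁻¹ • y, ‖y‖⁻¹ • y)).2 := by
    intro y hy
    filter_upwards [continuous_norm.continuousAt.eventually_lt_const hy] with v hv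
    simp [cc, not_le.2 hv]
  have hgt : ∀ y : E, 1 - a < ‖y‖ → cc Fl =ᶠ[𝓝 y] id := by
    intro y hy
    filter_upwards [continuous_norm.continuousAt.eventually_const_lt hy] with v hv
    exact hcc v hv
  have hccs : ∀ y : E, 0 < ‖y‖ → ContDiffAt ℝ ∞ (cc Fl) y := by
    intro y hy
    rcases lt_or_ge ‖y‖ 1 with h | h
    · exact (hsm y hy).congr_of_eventuallyEq (hlt y h)
    · exact contDiffAt_id.congr_of_eventuallyEq (hgt y (by linarith))
  refine ⟨cc Fl, hcc, fun y hy => (hccs y hy).continuousAt.continuousWithinAt, ?_⟩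
  intro y hy hpath
  have hy0 : 0 < ‖y‖ := hr₀.trans_le hy.1
  have key : ∀ᶠ z in 𝓝 y, G (cc Fl z) = H z := by
    rcases lt_or_ge (1 - a) ‖y‖ with h1 | h1
    · have h5 : ∀ᶠ v in 𝓝 y, |‖v‖ - 1| < a := by
        have h6 : ContinuousAt (fun v : E => |‖v‖ - 1|) y := by fun_prop
        refine h6.eventually_lt_const ?_
        show |‖y‖ - 1| < a
        rw [abs_lt]
        constructor <;> linarith [hy.2]
      filter_upwards [hgt y h1, h5] with v hv hv2
      rw [hv]
      exact haG v hv2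
    · have hy1 : ‖y‖ < 1 := by linarith
      -- the path
      set x : E := ‖y‖⁻¹ • y with hx
      have hpz : ∀ t ∈ Icc 0 (-Real.log ‖y‖), ‖(Fl t (x, x)).2‖ ≤ 1 := by
        intro t ht
        have hxn : ‖x‖ = 1 := by rw [hx, norm_smul, norm_inv, norm_norm, inv_mul_cancel₀ hy0.ne']
        rcases ht.1.eq_or_lt with h0 | h0
        · rw [← h0, hFl.zero]
          exact hxn.le
        · have hs : Real.exp (-t) ∈ Icc ‖y‖ 1 := by
            constructor
            · rw [← Real.exp_log hy0, Real.exp_le_exp]; linarith [ht.2]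
            · rw [Real.exp_le_one_iff]; linarith
          have h2 := hpath _ hs
          have h3 : ‖(Real.exp (-t) / ‖y‖) • y‖ = Real.exp (-t) := by
            rw [norm_smul, Real.norm_eq_abs, abs_of_pos (by positivity), div_mul_cancel₀ _ hy0.ne']
          have h4 : ¬1 ≤ Real.exp (-t) := by
            rw [not_le, Real.exp_lt_one_iff]; linarith
          have h5 : (Real.exp (-t))⁻¹ • (Real.exp (-t) / ‖y‖) • y = x := by
            rw [smul_smul, hx]
            congr 1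
            field_simp
          unfold cc at h2
          rw [h3, if_neg h4, h5, Real.log_exp, neg_neg] at h2
          exact h2
      -- nearby paths
      have hW : IsOpen {q : E × ℝ | ‖(Fl q.2 (q.1, q.1)).2‖ < (1 + R) / 2} := by
        refine isOpen_lt ?_ continuous_const
        have : Continuous fun q : E × ℝ => Fl q.2 (q.1, q.1) :=
          hFl.cont.comp (continuous_snd.prodMk (continuous_fst.prodMk continuous_fst))
        exact (continuous_snd.comp this).norm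
      obtain ⟨U, V, hU, hV, hxU, hIV, hUV⟩ := generalized_tube_lemma (isCompact_singleton (x := x))
        (isCompact_Icc (a := (0:ℝ)) (b := -Real.log ‖y‖)) hW (by
          rintro ⟨x', t⟩ ⟨hx', ht⟩
          rw [mem_singleton_iff] at hx'
          simp only at hx' ht
          subst hx'
          show ‖(Fl t (x, x)).2‖ < (1 + R) / 2
          have := hpz t ht
          linarith)
      have hxU' : x ∈ U := hxU rfl
      have hlog0 : 0 ≤ -Real.log ‖y‖ := by
        rw [neg_nonneg]; exact Real.log_nonpos hy0.le hy1.le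
      obtain ⟨η, hη, hηV⟩ := Metric.isOpen_iff.1 hV _ (hIV ⟨hlog0, le_rfl⟩)
      have hn1 : ContinuousAt (fun v : E => ‖v‖⁻¹ • v) y :=
        (continuous_norm.continuousAt.inv₀ hy0.ne').smul continuousAt_id
      have hn2 : ContinuousAt (fun v : E => -Real.log ‖v‖) y :=
        (continuous_norm.continuousAt.log hy0.ne').neg
      filter_upwards [hn1.eventually (hU.mem_nhds hxU'),
        hn2.eventually (Metric.ball_mem_nhds _ hη), hlt y hy1,
        continuous_norm.continuousAt.eventually_const_lt hy0,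
        continuous_norm.continuousAt.eventually_lt_const hy1] with v hv1 hv2 hv3 hv4 hv5
      rw [hv3]
      have hv6 : ‖‖v‖⁻¹ • v‖ = 1 := by
        rw [norm_smul, norm_inv, norm_norm, inv_mul_cancel₀ hv4.ne']
      have hT0 : 0 ≤ -Real.log ‖v‖ := by
        rw [neg_nonneg]; exact Real.log_nonpos hv4.le hv5.le
      have hb : ∀ t ∈ Icc 0 (-Real.log ‖v‖), b₁ (Fl t (‖v‖⁻¹ • v, ‖v‖⁻¹ • v)).2 = 1 := by
        intro t ht
        apply hb₁1
        have htV : t ∈ V := by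
          rcases le_or_gt t (-Real.log ‖y‖) with h | h
          · exact hIV ⟨ht.1, h⟩
          · apply hηV
            have hv2' : |-Real.log ‖v‖ - -Real.log ‖y‖| < η := hv2
            rw [mem_ball, Real.dist_eq]
            rw [abs_of_pos (by linarith)]
            have := (abs_lt.1 hv2').2
            linarith [ht.2]
        exact (hUV (show (‖v‖⁻¹ • v, t) ∈ U ×ˢ V from ⟨hv1, htV⟩)).le
      have h1 := fst_eq hFl hb₁n hb₂n hb₂1 (x := ‖v‖⁻¹ • v) (z := ‖v‖⁻¹ • v) hv6.le hb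
        (-Real.log ‖v‖) ⟨hT0, le_rfl⟩
      have h2 := conserved hFl hb₁0 hG hH hR (‖v‖⁻¹ • v, ‖v‖⁻¹ • v)
        (haG _ (by rw [hv6]; simpa using ha)) (-Real.log ‖v‖)
      rw [h2, h1, neg_neg, Real.exp_log hv4, smul_smul, mul_inv_cancel₀ hv4.ne', one_smul]
  refine ⟨hccs y hy0, ?_, key⟩
  have h1 : HasFDerivAt (cc Fl) (fderiv ℝ (cc Fl) y) y :=
    ((hccs y hy0).differentiableAt (by simp)).hasFDerivAt
  have h2 : HasFDerivAt G (fderiv ℝ G (cc Fl y)) (cc Fl y) :=
    (hG.differentiable (by simp) _).hasFDerivAt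
  have h3 := h2.comp y h1
  have h4 : (G ∘ cc Fl) =ᶠ[𝓝 y] H := key
  have h5 := (h3.congr_of_eventuallyEq h4.symm).unique (hH.differentiable (by simp) y).hasFDerivAt
  have h6 := hHi y hy
  rw [← h5] at h6
  exact Injective.of_comp (f := fderiv ℝ G (cc Fl y)) h6

end Pool.Agent.H27.Sch
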