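import Pool.Agent.H27.Sch.Col

/-! The lifted collar is embedded. -/

set_option autoImplicit false
set_option linter.unusedSectionVars false

open scoped Topology ContDiff Manifold RealInnerProductSpace
open Set Metric Filter Function

noncomputable section

namespace Pool.Agent.H27.Sch

variable {E : Type} [NormedAddCommGroup E] [InnerProductSpace ℝ E] [FiniteDimensional ℝ E]

lemma ult {X : Type} [TopologicalSpace X] {K : Set X} (hK : IsCompact K) {s : ℕ → X}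
    (hs : ∀ n, s n ∈ K) : ∃ x ∈ K, Tendsto s (hyperfilter ℕ : Filter ℕ) (𝓝 x) := by
  obtain ⟨x, hx, h⟩ := hK.ultrafilter_le_nhds ((hyperfilter ℕ).map s) (by
    rw [le_principal_iff]
    show s ⁻¹' K ∈ (hyperfilter ℕ : Filter ℕ)
    exact Filter.univ_mem' hs)
  exact ⟨x, hx, h⟩

/-- a local inverse -/
lemma ld_inv {c : E → E} {y : E} (hc : ContDiffAt ℝ ∞ c y) (hi : Injective (fderiv ℝ c y)) :
    ∃ L : E → E, (∀ᶠ z in 𝓝 (c y), c (L z) = z) ∧ Tendsto L (𝓝 (c y)) (𝓝 y) ∧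
      (∀ᶠ z in 𝓝 y, L (c z) = z) ∧ ContDiffAt ℝ ∞ L (c y) ∧
      ∀ v, HasDerivAt (fun ε : ℝ => L (c y + ε • fderiv ℝ c y v)) v 0 := by
  obtain ⟨e, he⟩ := (inj_iff _).1 hi
  have h1 : HasStrictFDerivAt c (e : E →L[ℝ] E) y := by
    rw [he]
    exact hc.hasStrictFDerivAt (by simp)
  have h0 : HasFDerivAt c (e : E →L[ℝ] E) y := h1.hasFDerivAt
  refine ⟨h1.localInverse c e y, h1.eventually_right_inverse, h1.localInverse_tendsto,
    h1.eventually_left_inverse, ?_, fun v => ?_⟩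
  · exact hc.to_localInverse h0 (by simp)
  · have h2 := h1.to_localInverse.hasFDerivAt
    have h3 : HasDerivAt (fun ε : ℝ => c y + ε • fderiv ℝ c y v) (fderiv ℝ c y v) 0 := by
      have := ((hasDerivAt_id (0:ℝ)).smul_const (fderiv ℝ c y v)).const_add (c y)
      simpa using this
    have h4 : c y + (0:ℝ) • fderiv ℝ c y v = c y := by rw [zero_smul, add_zero]
    rw [← h4] at h2
    have h5 := h2.comp_hasDerivAt (0:ℝ) h3
    refine h5.congr_deriv ?_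
    rw [← he]
    exact e.symm_apply_apply v

/-- points with a larger norm near a given one -/
lemma approach {y : E} {r : ℝ} (hy : ‖y‖ = r) (hr : 0 < r) (hr1 : r < 1) :
    Tendsto (fun s : ℝ => (1 + s) • y) (𝓝[>] 0) (𝓝 y) ∧
      ∀ᶠ s : ℝ in 𝓝[>] 0, r < ‖(1 + s) • y‖ ∧ ‖(1 + s) • y‖ < 1 := by
  have h1 : Continuous (fun s : ℝ => (1 + s) • y) := by fun_prop
  have h2 : Tendsto (fun s : ℝ => (1 + s) • y) (𝓝 0) (𝓝 y) := by
    have := h1.tendsto 0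
    simpa using this
  refine ⟨h2.mono_left nhdsWithin_le_nhds, ?_⟩
  have h3 : ∀ᶠ s : ℝ in 𝓝[>] 0, ‖(1 + s) • y‖ < 1 :=
    (h2.norm.mono_left nhdsWithin_le_nhds).eventually_lt_const (by rw [hy]; exact hr1)
  filter_upwards [h3, self_mem_nhdsWithin] with s hs hs0
  refine ⟨?_, hs⟩
  have hs0' : (0:ℝ) < s := hs0
  rw [norm_smul, hy, Real.norm_eq_abs, abs_of_pos (by linarith)]
  nlinarith

/-- moving outwards along a vector -/
lemma outward {L : E → E} {q v₀ y v : E} (hL : Tendsto L (𝓝 q) (𝓝 y))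
    (hd : HasDerivAt (fun ε : ℝ => L (q + ε • v₀)) v 0) (hLq : L q = y) (hv : 0 < ⟪y, v⟫)
    {r : ℝ} (hy : ‖y‖ = r) (hr1 : r < 1) :
    ∀ᶠ ε : ℝ in 𝓝[>] 0, r < ‖L (q + ε • v₀)‖ ∧ ‖L (q + ε • v₀)‖ < 1 := by
  have h1 := hd.norm_sq
  simp only [zero_smul, add_zero, hLq] at h1
  have h2 : ∀ᶠ ε : ℝ in 𝓝[>] 0, 0 < slope (fun ε : ℝ => ‖L (q + ε • v₀)‖ ^ 2) 0 ε :=
    ((hasDerivWithinAt_iff_tendsto_slope' (lt_irrefl (0:ℝ))).1 h1.hasDerivWithinAt).eventually_const_lt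
      (by linarith)
  have h3 : Tendsto (fun ε : ℝ => q + ε • v₀) (𝓝[>] 0) (𝓝 q) := by
    have : Continuous (fun ε : ℝ => q + ε • v₀) := by fun_prop
    have h4 := this.tendsto 0
    simp only [zero_smul, add_zero] at h4
    exact h4.mono_left nhdsWithin_le_nhds
  have h5 : ∀ᶠ ε : ℝ in 𝓝[>] 0, ‖L (q + ε • v₀)‖ < 1 :=
    (hL.comp h3).norm.eventually_lt_const (by rw [hy]; exact hr1)
  filter_upwards [h2, h5, self_mem_nhdsWithin] with ε h6 h7 h8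
  refine ⟨?_, h7⟩
  have h8' : (0:ℝ) < ε := h8
  rw [slope_def_field, sub_zero, zero_smul, add_zero, hLq, hy] at h6
  have h9 : r ^ 2 < ‖L (q + ε • v₀)‖ ^ 2 := by
    have := (div_pos_iff_of_pos_right h8').1 h6
    linarith
  exact lt_of_pow_lt_pow_left₀ 2 (norm_nonneg _) h9

section

variable {c G H : E → E} {a r₀ : ℝ}

/-- the good property of a shell -/
def J (c : E → E) (r : ℝ) : Prop := (∀ y ∈ Sh E r, ‖c y‖ ≤ 1) ∧ InjOn c (Sh E r)

lemma J_mono {r r' : ℝ} (h : J c r) (hr : r ≤ r') : J c r' :=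
  ⟨fun y hy => h.1 y ⟨hr.trans hy.1, hy.2⟩, h.2.mono fun _ hy =>
    (show _ ∧ _ from ⟨hr.trans (show r' ≤ _ from hy.1), hy.2⟩)⟩

variable (hG : ContDiff ℝ ∞ G) (hGi : ∀ x, ‖x‖ ≤ 1 → Injective (fderiv ℝ G x))
  (hH : ContDiff ℝ ∞ H)
  (ha : 0 < a) (hr₀ : 0 < r₀) (hr₀1 : r₀ < 1) (hc1 : ∀ y, 1 - a < ‖y‖ → c y = y)
  (hcc : ContinuousOn c {y | 0 < ‖y‖})
  (hcl : ∀ y ∈ Sh E r₀, (∀ s ∈ Icc ‖y‖ 1, ‖c ((s / ‖y‖) • y)‖ ≤ 1) →
        ContDiffAt ℝ ∞ c y ∧ Injective (fderiv ℝ c y) ∧ ∀ᶠ z in 𝓝 y, G (c z) = H z)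

include hr₀ hcl in
lemma J_local {r : ℝ} (hr : r₀ ≤ r) (h : ∀ y ∈ Sh E r, ‖c y‖ ≤ 1) (y : E) (hy : y ∈ Sh E r) :
    ContDiffAt ℝ ∞ c y ∧ Injective (fderiv ℝ c y) ∧ ∀ᶠ z in 𝓝 y, G (c z) = H z := by
  have hy0 : 0 < ‖y‖ := hr₀.trans_le (hr.trans hy.1)
  refine hcl y ⟨hr.trans hy.1, hy.2⟩ fun s hs => h _ ?_
  have h1 : ‖(s / ‖y‖) • y‖ = s := by
    rw [norm_smul, Real.norm_eq_abs, abs_of_nonneg (div_nonneg (hy0.le.trans hs.1) hy0.le),
      div_mul_cancel₀ _ hy0.ne']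
  exact ⟨by rw [h1]; exact hy.1.trans hs.1, by rw [h1]; exact hs.2⟩

include hcc in
lemma c_cont {y : E} (hy : 0 < ‖y‖) : ContinuousAt c y :=
  hcc.continuousAt ((isOpen_lt continuous_const continuous_norm).mem_nhds hy)

include ha hr₀ hr₀1 hc1 hcc hcl hG hGi hH in
/-- different norms -/
lemma limit_aux {r : ℝ} (hr : r₀ ≤ r) (hr1 : r < 1) (hJ : ∀ r', r < r' → J c r')
    (hn : ∀ y ∈ Sh E r, ‖c y‖ ≤ 1) {y y' : E} (hy : ‖y‖ = r) (hy' : r < ‖y'‖) (hy'1 : ‖y'‖ ≤ 1)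
    (heq : c y = c y') : False := by
  have hrp : 0 < r := hr₀.trans_le hr
  obtain ⟨h1, h2⟩ := approach hy hrp hr1
  have hcy : Tendsto (fun s : ℝ => c ((1 + s) • y)) (𝓝[>] 0) (𝓝 (c y)) :=
    (c_cont hcc (by rw [hy]; exact hrp)).tendsto.comp h1
  have hne : y ≠ y' := by rintro rfl; linarith
  rcases hy'1.eq_or_lt with h3 | h3
  · have h4 : c y' = y' := hc1 y' (by linarith)
    rw [heq, h4] at hcy
    have h5 : ∀ᶠ s : ℝ in 𝓝[>] 0, 1 - a < ‖c ((1 + s) • y)‖ ∧ r < ‖c ((1 + s) • y)‖ :=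
      (hcy.norm.eventually_const_lt (by linarith)).and (hcy.norm.eventually_const_lt hy')
    have h6 : ∀ᶠ s : ℝ in 𝓝[>] 0, c ((1 + s) • y) = (1 + s) • y := by
      filter_upwards [h2, h5] with s hs hs'
      have h7 : ‖c ((1 + s) • y)‖ ≤ 1 := (hJ _ hs.1).1 _ ⟨le_rfl, hs.2.le⟩
      have h8 : c (c ((1 + s) • y)) = c ((1 + s) • y) := hc1 _ hs'.1
      have h9 : r < min ‖c ((1 + s) • y)‖ ‖(1 + s) • y‖ := lt_min hs'.2 hs.1
      exact (hJ _ h9).2 ⟨min_le_left _ _, h7⟩ ⟨min_le_right _ _, hs.2.le⟩ h8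
    exact hne (tendsto_nhds_unique (h1.congr' (h6.mono fun s hs => hs.symm)) hcy)
  · obtain ⟨g1, g2, -⟩ := J_local hr₀ hcl hr hn y' ⟨hy'.le, hy'1⟩
    obtain ⟨L, hL1, hL2, -⟩ := ld_inv g1 g2
    rw [heq] at hcy
    have h5 : Tendsto (fun s : ℝ => L (c ((1 + s) • y))) (𝓝[>] 0) (𝓝 y') := hL2.comp hcy
    have h6 : ∀ᶠ s : ℝ in 𝓝[>] 0, L (c ((1 + s) • y)) = (1 + s) • y := by
      filter_upwards [h2, h5.norm.eventually_const_lt hy', h5.norm.eventually_lt_const h3,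
        hcy.eventually hL1] with s hs hs1 hs2 hs3
      have h9 : r < min ‖L (c ((1 + s) • y))‖ ‖(1 + s) • y‖ := lt_min hs1 hs.1
      exact (hJ _ h9).2 ⟨min_le_left _ _, hs2.le⟩ ⟨min_le_right _ _, hs.2.le⟩ hs3
    exact hne (tendsto_nhds_unique (h1.congr' (h6.mono fun s hs => hs.symm)) h5)

variable (hNC : ∀ y y' : E, y ∈ Sh E r₀ → ‖y'‖ = ‖y‖ → y ≠ y' → H y = H y' →
  ∃ v v' : E, fderiv ℝ H y v = fderiv ℝ H y' v' ∧ 0 < ⟪y, v⟫ ∧ 0 < ⟪y', v'⟫)

include ha hr₀ hr₀1 hc1 hcc hcl hG hGi hH hNC in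
lemma limit_J {r : ℝ} (hr : r₀ ≤ r) (hr1 : r < 1) (hJ : ∀ r', r < r' → J c r') : J c r := by
  have hrp : 0 < r := hr₀.trans_le hr
  have hn : ∀ y ∈ Sh E r, ‖c y‖ ≤ 1 := by
    intro y hy
    rcases hy.1.eq_or_lt with h | h
    · obtain ⟨h1, h2⟩ := approach h.symm hrp hr1
      have hcy : Tendsto (fun s : ℝ => c ((1 + s) • y)) (𝓝[>] 0) (𝓝 (c y)) :=
        (c_cont hcc (by rw [← h]; exact hrp)).tendsto.comp h1
      refine le_of_tendsto hcy.norm ?_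
      filter_upwards [h2] with s hs
      exact (hJ _ hs.1).1 _ ⟨le_rfl, hs.2.le⟩
    · exact (hJ _ h).1 y ⟨le_rfl, hy.2⟩
  refine ⟨hn, ?_⟩
  intro y hy y' hy' heq
  rcases hy.1.eq_or_lt with h | h
  · rcases hy'.1.eq_or_lt with h' | h'
    · -- equal norms
      by_contra hne
      obtain ⟨g1, g2, g3⟩ := J_local hr₀ hcl hr hn y hy
      obtain ⟨g1', g2', g3'⟩ := J_local hr₀ hcl hr hn y' hy'
      have hHH : H y = H y' := by
        rw [← g3.self_of_nhds, ← g3'.self_of_nhds, heq]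
      obtain ⟨v, v', hv, hv1, hv2⟩ := hNC y y' ⟨hr.trans hy.1, hy.2⟩ (by rw [← h, ← h']) hne hHH
      have hch : ∀ z w : E, ContDiffAt ℝ ∞ c z → (∀ᶠ u in 𝓝 z, G (c u) = H u) →
          fderiv ℝ G (c z) (fderiv ℝ c z w) = fderiv ℝ H z w := by
        intro z w k1 k2
        have h1 : HasFDerivAt c (fderiv ℝ c z) z := (k1.differentiableAt (by simp)).hasFDerivAt
        have h2 : HasFDerivAt G (fderiv ℝ G (c z)) (c z) :=
          (hG.differentiable (by simp) _).hasFDerivAt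
        have h4 : (G ∘ c) =ᶠ[𝓝 z] H := k2
        have h5 := ((h2.comp z h1).congr_of_eventuallyEq h4.symm).unique
          (hH.differentiable (by simp) z).hasFDerivAt
        exact DFunLike.congr_fun h5 w
      have hvv : fderiv ℝ c y v = fderiv ℝ c y' v' := by
        apply hGi (c y) (hn y hy)
        rw [hch y v g1 g3, heq, hch y' v' g1' g3']
        exact hv
      obtain ⟨L, hL1, hL2, hL3, -, hL4⟩ := ld_inv g1 g2
      obtain ⟨L', hL1', hL2', hL3', -, hL4'⟩ := ld_inv g1' g2'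
      have k1 := outward hL2 (hL4 v) hL3.self_of_nhds hv1 h.symm hr1
      have k2 := outward hL2' (hL4' v') hL3'.self_of_nhds hv2 h'.symm hr1
      rw [← hvv, ← heq] at k2
      have h3 : Tendsto (fun ε : ℝ => c y + ε • fderiv ℝ c y v) (𝓝[>] 0) (𝓝 (c y)) := by
        have : Continuous (fun ε : ℝ => c y + ε • fderiv ℝ c y v) := by fun_prop
        have h4 := this.tendsto 0
        simp only [zero_smul, add_zero] at h4
        exact h4.mono_left nhdsWithin_le_nhds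
      rw [← heq] at hL1' hL2'
      have h6 : ∀ᶠ ε : ℝ in 𝓝[>] 0,
          L (c y + ε • fderiv ℝ c y v) = L' (c y + ε • fderiv ℝ c y v) := by
        filter_upwards [k1, k2, h3.eventually hL1, h3.eventually hL1'] with ε e1 e2 e3 e4
        have h9 : r < min ‖L (c y + ε • fderiv ℝ c y v)‖ ‖L' (c y + ε • fderiv ℝ c y v)‖ :=
          lt_min e1.1 e2.1
        exact (hJ _ h9).2 ⟨min_le_left _ _, e1.2.le⟩ ⟨min_le_right _ _, e2.2.le⟩
          (e3.trans e4.symm)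
      exact hne (tendsto_nhds_unique ((hL2.comp h3).congr' h6) (hL2'.comp h3))
    · exact (limit_aux hG hGi hH ha hr₀ hr₀1 hc1 hcc hcl hr hr1 hJ hn h.symm h' hy'.2 heq).elim
  · rcases hy'.1.eq_or_lt with h' | h'
    · exact (limit_aux hG hGi hH ha hr₀ hr₀1 hc1 hcc hcl hr hr1 hJ hn h'.symm h hy.2
        heq.symm).elim
    · exact (hJ _ (lt_min h h')).2 ⟨min_le_left _ _, hy.2⟩ ⟨min_le_right _ _, hy'.2⟩ heq

include ha hr₀ hr₀1 hc1 hcc hcl in
lemma open_J {r r₁ : ℝ} (hr₁ : r₀ ≤ r₁) (hr : r₁ < r) (hr1 : r ≤ 1) (hJ : J c r) :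
    ∃ r', r₁ ≤ r' ∧ r' < r ∧ J c r' := by
  have hr₁p : 0 < r₁ := hr₀.trans_le hr₁
  have hcomp : ∀ s : ℝ, IsCompact (Sh E s) := by
    intro s
    have h1 : Sh E s = closedBall (0:E) 1 ∩ {y | s ≤ ‖y‖} := by
      ext y; simp [Sh, and_comm]
    rw [h1]
    exact (isCompact_closedBall 0 1).inter_right (isClosed_le continuous_const continuous_norm)
  have hlim : ∀ u : ℝ, Tendsto (fun n : ℕ => r - (r - u) / ((n:ℝ) + 1)) (hyperfilter ℕ : Filter ℕ)
      (𝓝 r) := by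
    intro u
    have h1 : Tendsto (fun n : ℕ => (r - u) / ((n:ℝ) + 1)) atTop (𝓝 0) := by
      have := (tendsto_one_div_add_atTop_nhds_zero_nat (𝕜 := ℝ)).const_mul (r - u)
      simp only [mul_zero] at this
      refine this.congr fun n => ?_
      rw [mul_one_div]
    have h2 := h1.const_sub r
    rw [sub_zero] at h2
    exact h2.mono_left Nat.hyperfilter_le_atTop
  -- norms
  obtain ⟨r₂, hr₂1, hr₂2, hn⟩ : ∃ r₂, r₁ ≤ r₂ ∧ r₂ < r ∧ ∀ y ∈ Sh E r₂, ‖c y‖ ≤ 1 := by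
    by_contra hcon
    push Not at hcon
    have h1 : ∀ n : ℕ, ∃ y ∈ Sh E (r - (r - r₁) / ((n:ℝ) + 1)), 1 < ‖c y‖ := by
      intro n
      have hn0 : (0:ℝ) < (n:ℝ) + 1 := by positivity
      refine hcon _ ?_ ?_
      · have : (r - r₁) / ((n:ℝ) + 1) ≤ r - r₁ := by
          rw [div_le_iff₀ hn0]
          nlinarith [Nat.cast_nonneg (α := ℝ) n]
        linarith
      · have : 0 < (r - r₁) / ((n:ℝ) + 1) := div_pos (by linarith) hn0
        linarith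
    choose y hy1 hy2 using h1
    have hy3 : ∀ n, y n ∈ Sh E r₁ := fun n => by
      refine ⟨le_trans ?_ (hy1 n).1, (hy1 n).2⟩
      have hn0 : (0:ℝ) < (n:ℝ) + 1 := by positivity
      have : (r - r₁) / ((n:ℝ) + 1) ≤ r - r₁ := by
        rw [div_le_iff₀ hn0]
        nlinarith [Nat.cast_nonneg (α := ℝ) n]
      linarith
    obtain ⟨z, hz, hzl⟩ := ult (hcomp r₁) hy3
    have hz1 : r ≤ ‖z‖ := le_of_tendsto_of_tendsto (hlim r₁) hzl.norm
      (Filter.Eventually.of_forall fun n => (hy1 n).1)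
    have hz2 : ‖z‖ ≤ r := by
      refine le_of_tendsto hzl.norm (Filter.Eventually.of_forall fun n => ?_)
      by_contra h
      push Not at h
      exact absurd (hJ.1 _ ⟨h.le, (hy1 n).2⟩) (not_le.2 (hy2 n))
    have hzr : ‖z‖ = r := le_antisymm hz2 hz1
    have hcz : Tendsto (fun n => c (y n)) (hyperfilter ℕ : Filter ℕ) (𝓝 (c z)) :=
      (c_cont hcc (by rw [hzr]; linarith)).tendsto.comp hzl
    have h2 : 1 ≤ ‖c z‖ := ge_of_tendsto hcz.norm (Filter.Eventually.of_forall fun n => (hy2 n).le)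
    have h3 : ‖c z‖ = 1 := le_antisymm (hJ.1 z ⟨hz1, hz.2⟩) h2
    rcases hr1.eq_or_lt with h4 | h4
    · have h5 : ∀ᶠ n in (hyperfilter ℕ : Filter ℕ), 1 - a < ‖y n‖ :=
        hzl.norm.eventually_const_lt (by rw [hzr, h4]; linarith)
      obtain ⟨n, hn⟩ := h5.exists
      have h6 := hc1 _ hn
      have h7 := hy2 n
      rw [h6] at h7
      exact absurd (hy1 n).2 (not_le.2 h7)
    · have h5 : c (c z) = c z := hc1 _ (by rw [h3]; linarith)
      have h6 := hJ.2 (show c z ∈ Sh E r from ⟨by rw [h3]; exact hr1, h3.le⟩)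
        (show z ∈ Sh E r from ⟨hz1, hz.2⟩) h5
      rw [h6] at h3
      linarith
  -- injectivity
  by_contra hcon
  push Not at hcon
  have h1 : ∀ n : ℕ, ∃ p : E × E, p.1 ∈ Sh E (r - (r - r₂) / ((n:ℝ) + 1)) ∧
      p.2 ∈ Sh E (r - (r - r₂) / ((n:ℝ) + 1)) ∧ c p.1 = c p.2 ∧ p.1 ≠ p.2 := by
    intro n
    have hn0 : (0:ℝ) < (n:ℝ) + 1 := by positivity
    have e1 : r₂ ≤ r - (r - r₂) / ((n:ℝ) + 1) := by
      have : (r - r₂) / ((n:ℝ) + 1) ≤ r - r₂ := by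
        rw [div_le_iff₀ hn0]
        nlinarith [Nat.cast_nonneg (α := ℝ) n]
      linarith
    have e2 : r - (r - r₂) / ((n:ℝ) + 1) < r := by
      have : 0 < (r - r₂) / ((n:ℝ) + 1) := div_pos (by linarith) hn0
      linarith
    by_contra hno
    push Not at hno
    exact hcon _ (hr₂1.trans e1) e2 ⟨fun y hy => hn y ⟨e1.trans hy.1, hy.2⟩,
      fun y hy y' hy' h => hno (y, y') hy hy' h⟩
  choose p hp1 hp2 hp3 hp4 using h1
  have hsub : ∀ (n : ℕ) (y : E), y ∈ Sh E (r - (r - r₂) / ((n:ℝ) + 1)) → y ∈ Sh E r₂ := by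
    intro n y hy
    refine ⟨le_trans ?_ hy.1, hy.2⟩
    have hn0 : (0:ℝ) < (n:ℝ) + 1 := by positivity
    have : (r - r₂) / ((n:ℝ) + 1) ≤ r - r₂ := by
      rw [div_le_iff₀ hn0]
      nlinarith [Nat.cast_nonneg (α := ℝ) n]
    linarith
  obtain ⟨z, hz, hzl⟩ := ult (hcomp r₂) (s := fun n => (p n).1) fun n => hsub n _ (hp1 n)
  obtain ⟨z', hz', hzl'⟩ := ult (hcomp r₂) (s := fun n => (p n).2) fun n => hsub n _ (hp2 n)
  have hz1 : r ≤ ‖z‖ := le_of_tendsto_of_tendsto (hlim r₂) hzl.norm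
    (Filter.Eventually.of_forall fun n => (hp1 n).1)
  have hz1' : r ≤ ‖z'‖ := le_of_tendsto_of_tendsto (hlim r₂) hzl'.norm
    (Filter.Eventually.of_forall fun n => (hp2 n).1)
  have hrp : 0 < r := by linarith
  have hcz : Tendsto (fun n => c (p n).1) (hyperfilter ℕ : Filter ℕ) (𝓝 (c z)) :=
    (c_cont hcc (by linarith)).tendsto.comp hzl
  have hcz' : Tendsto (fun n => c (p n).2) (hyperfilter ℕ : Filter ℕ) (𝓝 (c z')) :=
    (c_cont hcc (by linarith)).tendsto.comp hzl'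
  simp only [hp3] at hcz
  have hzz : z = z' := hJ.2 ⟨hz1, hz.2⟩ ⟨hz1', hz'.2⟩ (tendsto_nhds_unique hcz hcz')
  rw [← hzz] at hzl'
  obtain ⟨g1, g2, -⟩ := J_local hr₀ hcl (hr₁.trans hr.le) hJ.1 z ⟨hz1, hz.2⟩
  obtain ⟨U, hU, hUi⟩ := inj_near g1 g2
  obtain ⟨n, hn1, hn2⟩ := ((hzl.eventually hU).and (hzl'.eventually hU)).exists
  exact hp4 n (hUi hn1 hn2 (hp3 n))

include ha hr₀ hr₀1 hc1 hcc hcl hG hGi hH hNC in
/-- **The lifted collar is embedded.** -/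
theorem collar_J : J c r₀ := by
  have h1 : ∀ r, 1 - a < r → J c r := by
    intro r hr
    refine ⟨fun y hy => ?_, fun y hy y' hy' h => ?_⟩
    · rw [hc1 y (hr.trans_le hy.1)]; exact hy.2
    · rwa [hc1 y (hr.trans_le hy.1), hc1 y' (hr.trans_le hy'.1)] at h
  set s : Set ℝ := {τ | J c (1 - τ)} with hs
  have hmono : ∀ τ τ' : ℝ, τ' ≤ τ → τ ∈ s → τ' ∈ s := fun τ τ' h h' =>
    J_mono h' (by linarith)
  have hclosed : IsClosed (s ∩ Icc 0 (1 - r₀)) := by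
    rw [← closure_subset_iff_isClosed]
    intro τ hτ
    have hτI : τ ∈ Icc 0 (1 - r₀) := by
      have h2 : closure (s ∩ Icc 0 (1 - r₀)) ⊆ Icc 0 (1 - r₀) :=
        closure_minimal inter_subset_right isClosed_Icc
      exact h2 hτ
    refine ⟨?_, hτI⟩
    by_cases h2 : ∃ τ' ∈ s, τ ≤ τ'
    · obtain ⟨τ', h3, h4⟩ := h2
      exact hmono _ _ h4 h3
    · push Not at h2
      rcases hτI.1.eq_or_lt with h0 | h0
      · show J c (1 - τ)
        exact h1 _ (by linarith)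
      · refine limit_J hG hGi hH ha hr₀ hr₀1 hc1 hcc hcl hNC (by linarith [hτI.2])
          (by linarith) fun r' hr' => ?_
        rw [Metric.mem_closure_iff] at hτ
        obtain ⟨τ', hτ', hd⟩ := hτ (r' - (1 - τ)) (by linarith)
        rw [Real.dist_eq] at hd
        have h5 := (abs_lt.1 hd).2
        exact J_mono (show J c (1 - τ') from hτ'.1) (by linarith)
  have h0 : (0:ℝ) ∈ s := h1 _ (by linarith)
  have hsub : Icc 0 (1 - r₀) ⊆ s := by
    refine hclosed.Icc_subset_of_forall_exists_gt h0 ?_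
    rintro τ ⟨hτ, hτI⟩ τ' hτ'
    have hτ'' : τ < τ' := hτ'
    obtain ⟨r', h3, h4, h5⟩ := open_J ha hr₀ hr₀1 hc1 hcc hcl (r := 1 - τ)
      (r₁ := max r₀ (1 - τ')) (le_max_left _ _) (max_lt (by linarith [hτI.2]) (by linarith))
      (by linarith [hτI.1]) hτ
    refine ⟨1 - r', ?_, by linarith, ?_⟩
    · show J c (1 - (1 - r'))
      rw [sub_sub_cancel]; exact h5
    · have := (le_max_right r₀ (1 - τ')).trans h3
      linarith
  have := hsub (show 1 - r₀ ∈ Icc 0 (1 - r₀) from ⟨by linarith, le_rfl⟩)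
  have h6 : J c (1 - (1 - r₀)) := this
  rwa [sub_sub_cancel] at h6

end

end Pool.Agent.H27.Sch
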