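import Mathlib
import Pool.Graph.R_seed8.H826R2.Wein.Flw

/-! Flows of compactly supported vector fields on a vector space. -/

set_option autoImplicit false
set_option linter.unusedSectionVars false

open scoped Topology ContDiff Manifold
open Set Metric Filter

noncomputable section

namespace Pool.Agent.H27.Sch

variable {F : Type} [NormedAddCommGroup F] [NormedSpace ℝ F] [FiniteDimensional ℝ F]

/-- `Fl` is the flow of the vector field `X` -/
structure GFlow (X : F → F) (Fl : ℝ → F → F) : Prop where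
  zero : ∀ x, Fl 0 x = x
  add : ∀ s t x, Fl (s + t) x = Fl s (Fl t x)
  smooth : ContDiff ℝ ∞ (fun p : ℝ × F => Fl p.1 p.2)
  deriv : ∀ x t, HasDerivAt (fun t => Fl t x) (X (Fl t x)) t
  lip : ∃ K : NNReal, LipschitzWith K X

theorem exists_gflow {X : F → F} (hX : ContDiff ℝ ∞ X) {K : Set F} (hK : IsCompact K)
    (hXK : ∀ x ∉ K, X x = 0) : ∃ Fl, GFlow X Fl := by
  have hV : ContMDiff 𝓘(ℝ, F) 𝓘(ℝ, F).tangent ∞ (fun x => (⟨x, X x⟩ : TangentBundle 𝓘(ℝ, F) F)) :=
    contMDiff_vectorSpace_iff_contDiff.2 hX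
  choose c hc0 hc using fun x => H826R2.Wein.complete_of_compact (W := fun x => X x) hV hK hXK x
  have hadd := fun x s t => Helper186.flow_add hV hc0 hc x s t
  refine ⟨fun t x => c x t, hc0, fun s t x => ?_, ?_, ?_, ?_⟩
  · rw [add_comm]
    exact hadd x t s
  · have h1 := (Helper186.contMDiff_flow hV hc0 hc).comp
      ((contMDiff_snd (I := 𝓘(ℝ, ℝ)) (J := 𝓘(ℝ, F)) (M := ℝ) (N := F)).prodMk contMDiff_fst)
    rw [← modelWithCornersSelf_prod, chartedSpaceSelf_prod] at h1
    exact contMDiff_iff_contDiff.1 h1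
  · intro x t
    have h1 := hc x t
    have h3 : HasFDerivAt (c x) ((1 : ℝ →L[ℝ] ℝ).smulRight (X (c x t))) t :=
      hasMFDerivAt_iff_hasFDerivAt.1 h1
    refine h3.hasDerivAt.congr_deriv ?_
    simp
  · have hcs : HasCompactSupport X := HasCompactSupport.intro hK hXK
    exact (hX.of_le (by simp : (1 : WithTop ℕ∞) ≤ ∞)).lipschitzWith_of_hasCompactSupport hcs (by simp)

namespace GFlow

variable {X : F → F} {Fl : ℝ → F → F} (h : GFlow X Fl)
include h

lemma neg_add (t : ℝ) (x : F) : Fl (-t) (Fl t x) = x := by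
  rw [← h.add, neg_add_cancel, h.zero]

lemma add_neg (t : ℝ) (x : F) : Fl t (Fl (-t) x) = x := by
  rw [← h.add, add_neg_cancel, h.zero]

lemma cont : Continuous (fun p : ℝ × F => Fl p.1 p.2) := h.smooth.continuous

lemma smooth_x (t : ℝ) : ContDiff ℝ ∞ (Fl t) :=
  h.smooth.comp (contDiff_const.prodMk contDiff_id)

lemma cont_t (x : F) : Continuous (fun t => Fl t x) :=
  h.cont.comp (by fun_prop : Continuous fun t : ℝ => (t, x))

/-- the differential of the flow is injective -/
lemma inj (t : ℝ) (x : F) : Function.Injective (fderiv ℝ (Fl t) x) := by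
  have h1 : HasFDerivAt (Fl t) (fderiv ℝ (Fl t) x) x :=
    ((h.smooth_x t).differentiable (by simp) x).hasFDerivAt
  have h2 : HasFDerivAt (Fl (-t)) (fderiv ℝ (Fl (-t)) (Fl t x)) (Fl t x) :=
    ((h.smooth_x (-t)).differentiable (by simp) _).hasFDerivAt
  have h3 := h2.comp x h1
  have h4 : Fl (-t) ∘ Fl t = id := funext fun y => h.neg_add t y
  rw [h4] at h3
  have h5 := h3.unique (hasFDerivAt_id x)
  intro a b hab
  have h6 := DFunLike.congr_fun h5 a
  have h7 := DFunLike.congr_fun h5 b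
  simp only [ContinuousLinearMap.comp_apply, ContinuousLinearMap.id_apply] at h6 h7
  rw [← h6, ← h7, hab]

/-- uniqueness of integral curves -/
lemma uniq {γ : ℝ → F} {T : ℝ} (hγ : ContinuousOn γ (Icc 0 T))
    (hγ' : ∀ t ∈ Ico 0 T, HasDerivWithinAt γ (X (γ t)) (Ici t) t) :
    ∀ t ∈ Icc 0 T, Fl t (γ 0) = γ t := by
  obtain ⟨K, hK⟩ := h.lip
  have := ODE_solution_unique (v := fun _ => X) (f := fun t => Fl t (γ 0)) (g := γ)
    (a := 0) (b := T) (fun _ => hK) (h.cont_t _).continuousOn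
    (fun t _ => (h.deriv (γ 0) t).hasDerivWithinAt) hγ hγ' (by simp [h.zero])
  exact fun t ht => this ht

end GFlow

end Pool.Agent.H27.Sch
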