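import Pool.Agent.H27.Sch.Wid

/-! Immersed balls along a regular homotopy without inverse self-tangencies. -/

set_option autoImplicit false
set_option linter.unusedSectionVars false

open scoped Topology ContDiff Manifold RealInnerProductSpace
open Set Metric Filter Function

noncomputable section

namespace Pool.Agent.H27.Sch

section gen

variable {V : Type} [NormedAddCommGroup V] [NormedSpace ℝ V] [FiniteDimensional ℝ V]

lemma inj_near_gen {G : V → V} {z : V} (hG : ContDiffAt ℝ ∞ G z)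
    (hz : Injective (fderiv ℝ G z)) : ∃ U ∈ 𝓝 z, InjOn G U := by
  let e : V ≃L[ℝ] V := (LinearEquiv.ofInjectiveEndo (fderiv ℝ G z : V →ₗ[ℝ] V)
    hz).toContinuousLinearEquiv
  have he : (e : V →L[ℝ] V) = fderiv ℝ G z := by
    ext x
    rfl
  have h1 : HasStrictFDerivAt G (e : V →L[ℝ] V) z := by
    rw [he]
    exact hG.hasStrictFDerivAt (by simp)
  exact ⟨_, (h1.toOpenPartialHomeomorph G).open_source.mem_nhds
    h1.mem_toOpenPartialHomeomorph_source, (h1.toOpenPartialHomeomorph G).injOn⟩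

end gen

variable {E : Type} [NormedAddCommGroup E] [InnerProductSpace ℝ E] [FiniteDimensional ℝ E]

/-- the partial differential -/
def DF (F : ℝ → E → E) (p : ℝ × E) : E →L[ℝ] E :=
  (fderiv ℝ (fun p : ℝ × E => F p.1 p.2) p).comp (ContinuousLinearMap.inr ℝ ℝ E)

section

variable {F : ℝ → E → E} (hF : ContDiff ℝ ∞ (fun p : ℝ × E => F p.1 p.2))
include hF

lemma DF_has (t : ℝ) (x : E) : HasFDerivAt (F t) (DF F (t, x)) x := by
  have h1 : HasFDerivAt (fun p : ℝ × E => F p.1 p.2)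
      (fderiv ℝ (fun p : ℝ × E => F p.1 p.2) (t, x)) (t, x) :=
    (hF.differentiable (by simp) _).hasFDerivAt
  have h2 : HasFDerivAt (fun x : E => (t, x)) (ContinuousLinearMap.inr ℝ ℝ E) x :=
    hasFDerivAt_prodMk_right t x
  exact h1.comp x h2

lemma DF_eq (t : ℝ) (x : E) : fderiv ℝ (F t) x = DF F (t, x) := (DF_has hF t x).fderiv

lemma DF_cont : Continuous (DF F) :=
  (hF.continuous_fderiv (by simp)).clm_comp continuous_const

lemma F_smooth (t : ℝ) : ContDiff ℝ ∞ (F t) :=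
  hF.comp (contDiff_const.prodMk contDiff_id)

lemma Phi_inj {t : ℝ} {x : E} (h : Injective (DF F (t, x))) :
    ∃ U ∈ 𝓝 (t, x), InjOn (fun p : ℝ × E => (p.1, F p.1 p.2)) U := by
  have hs : ContDiff ℝ ∞ (fun p : ℝ × E => (p.1, F p.1 p.2)) := contDiff_fst.prodMk hF
  refine inj_near_gen hs.contDiffAt ?_
  have h1 : HasFDerivAt (fun p : ℝ × E => (p.1, F p.1 p.2))
      ((ContinuousLinearMap.fst ℝ ℝ E).prod (fderiv ℝ (fun p : ℝ × E => F p.1 p.2) (t, x))) (t, x) :=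
    hasFDerivAt_fst.prodMk (hF.differentiable (by simp) _).hasFDerivAt
  rw [h1.fderiv]
  rw [injective_iff_map_eq_zero]
  rintro ⟨τ, v⟩ h2
  have h3 : (τ, fderiv ℝ (fun p : ℝ × E => F p.1 p.2) (t, x) (τ, v)) = (0, 0) := h2
  rw [Prod.mk.injEq] at h3
  obtain ⟨h4, h5⟩ := h3
  rw [h4] at h5
  have h6 : DF F (t, x) v = 0 := h5
  have h7 : v = 0 := h (h6.trans (map_zero _).symm)
  rw [h4, h7]
  rfl

end

/-- the shell is compact -/
lemma Sh_compact (r : ℝ) : IsCompact (Sh E r) := by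
  have h1 : Sh E r = closedBall (0:E) 1 ∩ {y | r ≤ ‖y‖} := by
    ext y; simp [Sh, and_comm]
  rw [h1]
  exact (isCompact_closedBall 0 1).inter_right (isClosed_le continuous_const continuous_norm)

/-- radii which tend to one -/
def rad (n : ℕ) : ℝ := 1 - 1 / ((n:ℝ) + 2)

lemma rad_pos (n : ℕ) : 0 < rad n := by
  have : 1 / ((n:ℝ) + 2) < 1 := by
    rw [div_lt_one (by positivity)]
    linarith [Nat.cast_nonneg (α := ℝ) n]
  unfold rad
  linarith

lemma rad_lt (n : ℕ) : rad n < 1 := by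
  have : 0 < 1 / ((n:ℝ) + 2) := by positivity
  unfold rad
  linarith

lemma rad_lim : Tendsto rad (hyperfilter ℕ : Filter ℕ) (𝓝 1) := by
  have h1 : Tendsto (fun n : ℕ => 1 / ((n:ℝ) + 2)) atTop (𝓝 0) := by
    have h2 := (tendsto_one_div_add_atTop_nhds_zero_nat (𝕜 := ℝ)).comp (tendsto_add_atTop_nat 1)
    refine h2.congr fun n => ?_
    simp only [comp_apply]
    push_cast
    congr 1
    ring
  have h3 := h1.const_sub 1
  rw [sub_zero] at h3
  exact h3.mono_left Nat.hyperfilter_le_atTop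

/-- the hypotheses for the regular homotopy -/
structure RH (F : ℝ → E → E) : Prop where
  smooth : ContDiff ℝ ∞ (fun p : ℝ × E => F p.1 p.2)
  imm : ∀ t ∈ Icc (0:ℝ) 1, ∀ x, ‖x‖ = 1 → Injective (fderiv ℝ (F t) x)
  tan : ∀ t ∈ Icc (0:ℝ) 1, ∀ x y, ‖x‖ = 1 → ‖y‖ = 1 → x ≠ y → F t x = F t y →
    ∃ v w, fderiv ℝ (F t) x v = fderiv ℝ (F t) y w ∧ 0 < ⟪x, v⟫ ∧ 0 < ⟪y, w⟫

section

variable {F : ℝ → E → E} (h : RH F)
include h

lemma shell_imm : ∃ n₀ : ℕ, ∀ t ∈ Icc (0:ℝ) 1, ∀ x ∈ Sh E (rad n₀),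
    Injective (fderiv ℝ (F t) x) := by
  by_contra hcon
  push Not at hcon
  choose t ht x hx hn using hcon
  obtain ⟨t', ht', htl⟩ := ult isCompact_Icc ht
  obtain ⟨x', hx', hxl⟩ := ult (isCompact_closedBall (0:E) 1) (s := x) fun n => by
    simpa using (hx n).2
  have h1 : 1 ≤ ‖x'‖ := le_of_tendsto_of_tendsto rad_lim hxl.norm
    (Filter.Eventually.of_forall fun n => (hx n).1)
  have h2 : ‖x'‖ = 1 := le_antisymm (by simpa using hx') h1
  have h3 := h.imm t' ht' x' h2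
  rw [DF_eq h.smooth] at h3
  have h4 : Tendsto (fun n => DF F (t n, x n)) (hyperfilter ℕ : Filter ℕ) (𝓝 (DF F (t', x'))) :=
    ((DF_cont h.smooth).tendsto _).comp (htl.prodMk_nhds hxl)
  obtain ⟨n, hn'⟩ := (h4.eventually (isOpen_injOp.mem_nhds h3)).exists
  apply hn n
  rw [DF_eq h.smooth]
  exact hn'

lemma shell_tan : ∃ n₀ : ℕ, ∀ t ∈ Icc (0:ℝ) 1, ∀ y y' : E, y ∈ Sh E (rad n₀) → ‖y'‖ = ‖y‖ →
    y ≠ y' → F t y = F t y' →
    ∃ v v', fderiv ℝ (F t) y v = fderiv ℝ (F t) y' v' ∧ 0 < ⟪y, v⟫ ∧ 0 < ⟪y', v'⟫ := by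
  by_contra hcon
  push Not at hcon
  choose t ht y y' hy hyy hne heq hn using hcon
  obtain ⟨t₀, ht₀, htl⟩ := ult isCompact_Icc ht
  obtain ⟨z, hz, hzl⟩ := ult (isCompact_closedBall (0:E) 1) (s := y) fun n => by
    simpa using (hy n).2
  obtain ⟨z', hz', hzl'⟩ := ult (isCompact_closedBall (0:E) 1) (s := y') fun n => by
    simp only [mem_closedBall_zero_iff]
    rw [hyy]
    exact (hy n).2
  have h1 : 1 ≤ ‖z‖ := le_of_tendsto_of_tendsto rad_lim hzl.norm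
    (Filter.Eventually.of_forall fun n => (hy n).1)
  have h1' : 1 ≤ ‖z'‖ := le_of_tendsto_of_tendsto rad_lim hzl'.norm
    (Filter.Eventually.of_forall fun n => by
      show rad n ≤ ‖y' n‖
      rw [hyy]; exact (hy n).1)
  have h2 : ‖z‖ = 1 := le_antisymm (by simpa using hz) h1
  have h2' : ‖z'‖ = 1 := le_antisymm (by simpa using hz') h1'
  have hFz : Tendsto (fun n => F (t n) (y n)) (hyperfilter ℕ : Filter ℕ) (𝓝 (F t₀ z)) :=
    (h.smooth.continuous.tendsto (t₀, z)).comp (htl.prodMk_nhds hzl)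
  have hFz' : Tendsto (fun n => F (t n) (y' n)) (hyperfilter ℕ : Filter ℕ) (𝓝 (F t₀ z')) :=
    (h.smooth.continuous.tendsto (t₀, z')).comp (htl.prodMk_nhds hzl')
  simp only [heq] at hFz
  have hFF : F t₀ z = F t₀ z' := tendsto_nhds_unique hFz hFz'
  have hi := h.imm t₀ ht₀ z h2
  have hi' := h.imm t₀ ht₀ z' h2'
  rw [DF_eq h.smooth] at hi hi'
  by_cases hzz : z = z'
  · rw [← hzz] at hzl'
    obtain ⟨U, hU, hUi⟩ := Phi_inj h.smooth hi
    obtain ⟨n, hn1, hn2⟩ := (((htl.prodMk_nhds hzl).eventually hU).and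
      ((htl.prodMk_nhds hzl').eventually hU)).exists
    have h3 := hUi hn1 hn2 (by simp only [heq])
    exact hne n (Prod.mk.inj h3).2
  · obtain ⟨v, w, hvw, hv, hw⟩ := h.tan t₀ ht₀ z z' h2 h2' hzz hFF
    rw [DF_eq h.smooth, DF_eq h.smooth] at hvw
    obtain ⟨e, he⟩ := (inj_iff _).1 hi'
    have hA : Tendsto (fun n => DF F (t n, y n)) (hyperfilter ℕ : Filter ℕ)
        (𝓝 (DF F (t₀, z))) := ((DF_cont h.smooth).tendsto _).comp (htl.prodMk_nhds hzl)
    have hA' : Tendsto (fun n => DF F (t n, y' n)) (hyperfilter ℕ : Filter ℕ)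
        (𝓝 (DF F (t₀, z'))) := ((DF_cont h.smooth).tendsto _).comp (htl.prodMk_nhds hzl')
    have hAi : Tendsto (fun n => ContinuousLinearMap.inverse (DF F (t n, y' n)))
        (hyperfilter ℕ : Filter ℕ) (𝓝 (ContinuousLinearMap.inverse (DF F (t₀, z')))) := by
      have h5 : ContinuousAt (ContinuousLinearMap.inverse : (E →L[ℝ] E) → (E →L[ℝ] E))
          (DF F (t₀, z')) := by
        rw [← he]
        exact (contDiffAt_map_inverse (n := 0) (𝕜 := ℝ) e).continuousAt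
      exact h5.tendsto.comp hA'
    have hw' : Tendsto (fun n => ContinuousLinearMap.inverse (DF F (t n, y' n))
        (DF F (t n, y n) v)) (hyperfilter ℕ : Filter ℕ) (𝓝 w) := by
      have h6 : ContinuousLinearMap.inverse (DF F (t₀, z')) (DF F (t₀, z) v) = w := by
        rw [hvw, ← he, ContinuousLinearMap.inverse_equiv]
        exact e.symm_apply_apply w
      rw [← h6]
      have h7 : Tendsto (fun n => DF F (t n, y n) v) (hyperfilter ℕ : Filter ℕ)
          (𝓝 (DF F (t₀, z) v)) := by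
        have h8 : Continuous fun A : E →L[ℝ] E => A v := by fun_prop
        exact (h8.tendsto _).comp hA
      exact ((isBoundedBilinearMap_apply (𝕜 := ℝ) (E := E) (F := E)).continuous.tendsto _).comp
        (hAi.prodMk_nhds h7)
    have k1 : ∀ᶠ n in (hyperfilter ℕ : Filter ℕ), 0 < ⟪y n, v⟫ :=
      (hzl.inner (tendsto_const_nhds (x := v))).eventually_const_lt hv
    have k2 := (hzl'.inner (𝕜 := ℝ) hw').eventually_const_lt hw
    obtain ⟨n, hn1, hn2, hn3⟩ := (k1.and (k2.and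
      (hA'.eventually (isOpen_injOp.mem_nhds hi')))).exists
    have hn3' : Injective (DF F (t n, y' n)) := hn3
    obtain ⟨e', he'⟩ := (inj_iff _).1 hn3'
    have h9 := hn n v _ (by
      rw [DF_eq h.smooth, DF_eq h.smooth]
      show _ = DF F (t n, y' n) (ContinuousLinearMap.inverse (DF F (t n, y' n))
        (DF F (t n, y n) v))
      rw [← he', ContinuousLinearMap.inverse_equiv]
      exact (e'.apply_symm_apply _).symm) hn1
    exact absurd hn2 (not_lt.2 h9)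

lemma rad_mono {m n : ℕ} (hmn : m ≤ n) : rad m ≤ rad n := by
  unfold rad
  have h1 : ((m:ℝ) + 2) ≤ (n:ℝ) + 2 := by
    have : (m:ℝ) ≤ n := by exact_mod_cast hmn
    linarith
  have := one_div_le_one_div_of_le (by positivity : (0:ℝ) < (m:ℝ) + 2) h1
  linarith

end

/-- `F t` extends to an immersion of the ball -/
def Gd (F : ℝ → E → E) (t : ℝ) : Prop :=
  ∃ G : E → E, ContDiff ℝ ∞ G ∧ (∀ x, ‖x‖ ≤ 1 → Injective (fderiv ℝ G x)) ∧
    ∃ a > 0, a < 1 ∧ ∀ x, |‖x‖ - 1| < a → G x = F t x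

/-- the cut-off function near the sphere -/
def ch (r₁ r₃ : ℝ) (x : E) : ℝ := Real.smoothTransition ((‖x‖ ^ 2 - r₁ ^ 2) / (r₃ ^ 2 - r₁ ^ 2))

lemma ch_smooth {r₁ r₃ : ℝ} : ContDiff ℝ ∞ (ch r₁ r₃ : E → ℝ) := by
  unfold ch
  have h1 : ContDiff ℝ ∞ (fun y : E => ‖y‖ ^ 2) := contDiff_norm_sq ℝ
  exact (Real.smoothTransition.contDiff).comp ((h1.sub contDiff_const).div_const _)

lemma ch_low {r₁ r₃ : ℝ} (h0 : 0 ≤ r₁) (h1 : r₁ < r₃) {y : E} (hy : ‖y‖ ≤ r₁) :
    ch r₁ r₃ y = 0 := by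
  unfold ch
  rw [Real.smoothTransition.zero_of_nonpos]
  apply div_nonpos_of_nonpos_of_nonneg
  · have := pow_le_pow_left₀ (norm_nonneg y) hy 2
    linarith
  · have := pow_le_pow_left₀ h0 h1.le 2
    linarith

lemma ch_one {r₁ r₃ : ℝ} (h0 : 0 ≤ r₁) (h1 : r₁ < r₃) {y : E} (hy : r₃ ≤ ‖y‖) :
    ch r₁ r₃ y = 1 := by
  unfold ch
  rw [Real.smoothTransition.one_of_one_le]
  rw [le_div_iff₀ (by have := pow_lt_pow_left₀ h1 h0 two_ne_zero; linarith)]
  have := pow_le_pow_left₀ (h0.trans h1.le) hy 2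
  linarith

/-- the differential of the interpolation -/
def Ps (F : ℝ → E → E) (r₁ r₃ : ℝ) (q : (ℝ × ℝ) × E) : E →L[ℝ] E :=
  DF F (q.1.1, q.2) + (ch r₁ r₃ q.2 • (DF F (q.1.2, q.2) - DF F (q.1.1, q.2)) +
    (fderiv ℝ (ch r₁ r₃) q.2).smulRight (F q.1.2 q.2 - F q.1.1 q.2))

lemma Ps_cont {F : ℝ → E → E} (hF : ContDiff ℝ ∞ (fun p : ℝ × E => F p.1 p.2)) (r₁ r₃ : ℝ) :
    Continuous (Ps F r₁ r₃) := by
  have h1 : Continuous fun q : (ℝ × ℝ) × E => DF F (q.1.1, q.2) :=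
    (DF_cont hF).comp (by fun_prop)
  have h2 : Continuous fun q : (ℝ × ℝ) × E => DF F (q.1.2, q.2) :=
    (DF_cont hF).comp (by fun_prop)
  have h3 : Continuous fun q : (ℝ × ℝ) × E => ch r₁ r₃ q.2 :=
    ch_smooth.continuous.comp continuous_snd
  have h4 : Continuous fun q : (ℝ × ℝ) × E => fderiv ℝ (ch r₁ r₃ : E → ℝ) q.2 :=
    (ch_smooth.continuous_fderiv (by simp)).comp continuous_snd
  have h5 : Continuous fun q : (ℝ × ℝ) × E => F q.1.2 q.2 - F q.1.1 q.2 :=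
    (hF.continuous.comp (by fun_prop : Continuous fun q : (ℝ × ℝ) × E => (q.1.2, q.2))).sub
      (hF.continuous.comp (by fun_prop : Continuous fun q : (ℝ × ℝ) × E => (q.1.1, q.2)))
  have h6 : Continuous fun q : (ℝ × ℝ) × E =>
      (fderiv ℝ (ch r₁ r₃ : E → ℝ) q.2).smulRight (F q.1.2 q.2 - F q.1.1 q.2) := by
    have h7 : Continuous fun p : (E →L[ℝ] ℝ) × E => p.1.smulRight p.2 :=
      (ContinuousLinearMap.smulRightL ℝ E E).continuous₂
    exact h7.comp (h4.prodMk h5)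
  unfold Ps
  exact h1.add ((h3.smul (h2.sub h1)).add h6)

variable {F : ℝ → E → E} (h : RH F)
include h

/-- **One step.** -/
theorem step : ∃ δ > 0, ∀ t₀ ∈ Icc (0:ℝ) 1, ∀ t ∈ Icc (0:ℝ) 1, |t - t₀| < δ → Gd F t₀ → Gd F t := by
  obtain ⟨n₁, hn₁⟩ := shell_imm h
  obtain ⟨n₂, hn₂⟩ := shell_tan h
  set r₀ := rad (max n₁ n₂) with hr₀d
  have hr₀ : 0 < r₀ := rad_pos _
  have hr₀1 : r₀ < 1 := rad_lt _
  have himm : ∀ t ∈ Icc (0:ℝ) 1, ∀ x ∈ Sh E r₀, Injective (fderiv ℝ (F t) x) := fun t ht x hx =>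
    hn₁ t ht x ⟨(rad_mono h (le_max_left _ _)).trans hx.1, hx.2⟩
  have htan : ∀ t ∈ Icc (0:ℝ) 1, ∀ y y' : E, y ∈ Sh E r₀ → ‖y'‖ = ‖y‖ → y ≠ y' → F t y = F t y' →
      ∃ v v', fderiv ℝ (F t) y v = fderiv ℝ (F t) y' v' ∧ 0 < ⟪y, v⟫ ∧ 0 < ⟪y', v'⟫ :=
    fun t ht y y' hy => hn₂ t ht y y' ⟨(rad_mono h (le_max_right _ _)).trans hy.1, hy.2⟩
  obtain ⟨r₁, hr₁, hr₁1⟩ := exists_between hr₀1
  obtain ⟨r₂, hr₂, hr₂1⟩ := exists_between hr₁1
  obtain ⟨r₃, hr₃, hr₃1⟩ := exists_between hr₂1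
  have hr₂0 : 0 < r₂ := by linarith
  -- the uniform step
  obtain ⟨δ, hδ, hδ'⟩ : ∃ δ > 0, ∀ t₀ ∈ Icc (0:ℝ) 1, ∀ t ∈ Icc (0:ℝ) 1, |t - t₀| < δ →
      ∀ x ∈ Sh E r₀, Injective (Ps F r₂ r₃ ((t₀, t), x)) := by
    by_contra hcon
    push Not at hcon
    have h1 : ∀ n : ℕ, ∃ t₀ ∈ Icc (0:ℝ) 1, ∃ t ∈ Icc (0:ℝ) 1, |t - t₀| < 1 / ((n:ℝ) + 1) ∧
        ∃ x ∈ Sh E r₀, ¬Injective (Ps F r₂ r₃ ((t₀, t), x)) := fun n =>
      hcon (1 / ((n:ℝ) + 1)) (by positivity)
    choose t₀ ht₀ t ht htt x hx hn using h1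
    obtain ⟨a, ha, hal⟩ := ult isCompact_Icc ht₀
    obtain ⟨b, hb, hbl⟩ := ult isCompact_Icc ht
    obtain ⟨z, hz, hzl⟩ := ult (Sh_compact r₀) hx
    have hab : b - a = 0 := by
      have h2 : Tendsto (fun n => t n - t₀ n) (hyperfilter ℕ : Filter ℕ) (𝓝 (b - a)) :=
        hbl.sub hal
      have h3 : Tendsto (fun n : ℕ => 1 / ((n:ℝ) + 1)) (hyperfilter ℕ : Filter ℕ) (𝓝 0) :=
        (tendsto_one_div_add_atTop_nhds_zero_nat (𝕜 := ℝ)).mono_left Nat.hyperfilter_le_atTop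
      have h4 : Tendsto (fun n => t n - t₀ n) (hyperfilter ℕ : Filter ℕ) (𝓝 0) :=
        squeeze_zero_norm (fun n => by rw [Real.norm_eq_abs]; exact (htt n).le) h3
      exact tendsto_nhds_unique h2 h4
    have hba : b = a := by linarith
    rw [hba] at hbl
    have h5 : Tendsto (fun n => Ps F r₂ r₃ ((t₀ n, t n), x n)) (hyperfilter ℕ : Filter ℕ)
        (𝓝 (Ps F r₂ r₃ ((a, a), z))) :=
      ((Ps_cont h.smooth r₂ r₃).tendsto _).comp ((hal.prodMk_nhds hbl).prodMk_nhds hzl)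
    have h6 : Ps F r₂ r₃ ((a, a), z) = DF F (a, z) := by
      simp only [Ps, sub_self, smul_zero, zero_add]
      ext v
      simp
    have h7 : Injective (Ps F r₂ r₃ ((a, a), z)) := by
      rw [h6, ← DF_eq h.smooth]
      exact himm a ha z hz
    obtain ⟨n, hn'⟩ := (h5.eventually (isOpen_injOp.mem_nhds h7)).exists
    exact hn n hn'
  refine ⟨δ, hδ, ?_⟩
  rintro t₀ ht₀ t ht htt ⟨G, hG, hGi, a, ha, ha1, haG⟩
  have hHs := F_smooth h.smooth t₀
  obtain ⟨c, hc1, hcc, hcl⟩ := exists_collar hG hHs hGi ha ha1 haG hr₀ (himm t₀ ht₀)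
  have hJ : J c r₀ := collar_J hG hGi hHs ha hr₀ hr₀1 hc1 hcc hcl (htan t₀ ht₀)
  have hloc := J_local hr₀ hcl le_rfl hJ.1
  obtain ⟨G', hG', hGi', hGe'⟩ := widen hG hGi ha hr₀ haG hc1 hJ hloc hr₁ hr₁1
  set χ : E → ℝ := ch r₂ r₃ with hχ
  have hχs : ContDiff ℝ ∞ χ := ch_smooth
  refine ⟨fun x => G' x + χ x • (F t x - F t₀ x), hG'.add
    (hχs.smul ((F_smooth h.smooth t).sub hHs)), ?_, min a (1 - r₃),
    lt_min ha (by linarith), (min_le_left _ _).trans_lt ha1, ?_⟩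
  · intro x hx
    have hd : HasFDerivAt (fun x => G' x + χ x • (F t x - F t₀ x)) (fderiv ℝ G' x +
        (χ x • (DF F (t, x) - DF F (t₀, x)) + (fderiv ℝ χ x).smulRight (F t x - F t₀ x))) x := by
      have h1 : HasFDerivAt G' (fderiv ℝ G' x) x := (hG'.differentiable (by simp) x).hasFDerivAt
      have h2 : HasFDerivAt χ (fderiv ℝ χ x) x := (hχs.differentiable (by simp) x).hasFDerivAt
      exact h1.add (h2.smul ((DF_has h.smooth t x).sub (DF_has h.smooth t₀ x)))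
    rw [hd.fderiv]
    rcases le_or_gt ‖x‖ r₂ with h3 | h3
    · have h4 : χ x = 0 := ch_low hr₂0.le hr₃ h3
      have h5 : IsLocalMin χ x := Filter.Eventually.of_forall fun y => by
        rw [h4]; exact Real.smoothTransition.nonneg _
      rw [h5.fderiv_eq_zero, h4]
      have h6 : fderiv ℝ G' x + ((0:ℝ) • (DF F (t, x) - DF F (t₀, x)) +
          (0 : E →L[ℝ] ℝ).smulRight (F t x - F t₀ x)) = fderiv ℝ G' x := by
        ext v; simp
      rw [h6]
      exact hGi' x hx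
    · have h4 : G' =ᶠ[𝓝 x] F t₀ := by
        filter_upwards [continuous_norm.continuousAt.eventually_const_lt (hr₂.trans h3),
          continuous_norm.continuousAt.eventually_lt_const (show ‖x‖ < 1 + a by linarith)]
          with y hy1 hy2
        exact hGe' y hy1.le hy2
      rw [h4.fderiv_eq, DF_eq h.smooth]
      exact hδ' t₀ ht₀ t ht htt x ⟨by linarith, hx⟩
  · intro x hx
    have h1 := hx.trans_le (min_le_left _ _)
    have h2 := hx.trans_le (min_le_right _ _)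
    rw [abs_lt] at h1 h2
    have h3 : χ x = 1 := ch_one hr₂0.le hr₃ (by linarith)
    show G' x + χ x • (F t x - F t₀ x) = F t x
    rw [h3, one_smul, hGe' x (by linarith) (by linarith)]
    abel

/-- **Immersed balls along the homotopy.** -/
theorem all_times (h0 : Gd F 0) : Gd F 1 := by
  obtain ⟨δ, hδ, hstep⟩ := step h
  obtain ⟨N, hN⟩ := exists_nat_one_div_lt hδ
  have hN0 : (0:ℝ) < (N:ℝ) + 1 := by positivity
  have key : ∀ k : ℕ, k ≤ N + 1 → Gd F ((k:ℝ) / ((N:ℝ) + 1)) := by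
    intro k
    induction k with
    | zero => intro _; simpa using h0
    | succ k ih =>
      intro hk
      have hk1 : ((k:ℝ) + 1) ≤ (N:ℝ) + 1 := by exact_mod_cast hk
      have hk0 : (0:ℝ) ≤ k := Nat.cast_nonneg k
      refine hstep _ ⟨by positivity, ?_⟩ _ ⟨by positivity, ?_⟩ ?_ (ih (by omega))
      · rw [div_le_one hN0]; linarith
      · rw [div_le_one hN0]; push_cast; linarith
      · have h1 : ((k + 1 : ℕ) : ℝ) / ((N:ℝ) + 1) - (k:ℝ) / ((N:ℝ) + 1) = 1 / ((N:ℝ) + 1) := by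
          push_cast
          rw [← sub_div]
          congr 1
          ring
        rw [h1, abs_of_pos (by positivity)]
        exact hN
  have := key (N + 1) le_rfl
  push_cast at this
  rwa [div_self hN0.ne'] at this

end Pool.Agent.H27.Sch
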