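import Pool.Graph.R_pool_sql_team_seeded_3997aac3.Q196.XF.Sch

/-! Outward normal rays which meet a plane at a right angle. -/

set_option autoImplicit false
set_option linter.unusedSectionVars false

open scoped Topology ContDiff Manifold RealInnerProductSpace Gradient
open Set Metric Filter Module Pool.Agent.Q196.XB Pool.Agent.Q100.SS Pool.Agent.Q196.XF

noncomputable section

namespace Pool.Agent.H27.Sch

variable {E : Type} [NormedAddCommGroup E] [InnerProductSpace ℝ E] [FiniteDimensional ℝ E]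

/-- critical points of a function on a domain of Euclidean space -/
theorem eu_crit2 {ρ : E → ℝ} (hρ : ContDiff ℝ ∞ ρ) (hreg : ∀ x, ρ x = 0 → ∇ ρ x ≠ 0)
    (hcomp : IsCompact {x | ρ x ≤ 0}) (hconn : IsConnected {x | ρ x ≤ 0})
    (hL : Lifts {x | ρ x ≤ 0}) (hball : ¬IsBall E {x | ρ x ≤ 0}) {f : E → ℝ}
    (hf : ContDiff ℝ ∞ f) :
    ∃ x, ρ x ≤ 0 ∧ ∃ s, 0 ≤ s ∧ s * ρ x = 0 ∧ ∇ f x + s • ∇ ρ x = 0 ∧ ∃ v w : E, ‖v‖ = 1 ∧
      ‖w‖ = 1 ∧ ⟪v, w⟫ = 0 ∧ s * ⟪∇ ρ x, v⟫ = 0 ∧ s * ⟪∇ ρ x, w⟫ = 0 ∧ ∀ a c : ℝ,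
        ⟪fderiv ℝ (∇ f) x (a • v + c • w), a • v + c • w⟫ +
          s * ⟪fderiv ℝ (∇ ρ) x (a • v + c • w), a • v + c • w⟫ ≤ 0 := by
  have hgρ : ∀ y, gr (id : E → E) ρ y = ∇ ρ y := fun y =>
    gr_id (hρ.differentiable (by simp) y)
  have hgf : ∀ y, gr (id : E → E) f y = ∇ f y := fun y =>
    gr_id (hf.differentiable (by simp) y)
  obtain ⟨y, hy, s, hs0, hsρ, hg, v, w, hv, hw, hvw, h1, h2, h3⟩ :=
    exists_crit2 id_ld hρ.contMDiff hcomp hconn.nonempty hconn.isPreconnected hL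
      (fun x hx => by rw [hgρ]; exact hreg x hx) hball hf.contMDiff
  rw [hgρ, hgf] at hg
  rw [hgρ] at h1 h2
  refine ⟨y, hy, s, hs0, hsρ, hg, v, w, hv, hw, hvw, h1, h2, fun a c => ?_⟩
  have h4 := h3 a c
  rw [hb_sec id_ld hf.contMDiff sec_id (by simp), hb_sec id_ld hρ.contMDiff sec_id (by simp)] at h4
  exact h4

variable (V : Submodule ℝ E)

/-- the component orthogonal to `V` -/
def qp (V : Submodule ℝ E) : E →L[ℝ] E := Vᗮ.starProjection

lemma qp_symm (v w : E) : ⟪qp V v, w⟫ = ⟪v, qp V w⟫ :=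
  Submodule.inner_starProjection_left_eq_right _ _ _

lemma qp_inner (v : E) : ⟪qp V v, v⟫ = ‖qp V v‖ ^ 2 := by
  have h1 : qp V (qp V v) = qp V v := by
    have := Submodule.starProjection_apply_mem Vᗮ v
    exact Submodule.starProjection_eq_self_iff.2 this
  rw [← real_inner_self_eq_norm_sq, qp_symm V v (qp V v), h1, qp_symm V v v]

lemma qp_zero_iff (v : E) : qp V v = 0 ↔ v ∈ V := by
  unfold qp
  rw [Submodule.starProjection_apply_eq_zero_iff, Submodule.orthogonal_orthogonal]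

lemma qp_mem (v : E) : qp V v ∈ Vᗮ := Submodule.starProjection_apply_mem Vᗮ v

lemma sub_qp (v : E) : v - qp V v ∈ V := by
  rw [← qp_zero_iff, map_sub]
  have h1 : qp V (qp V v) = qp V v := by
    have := Submodule.starProjection_apply_mem Vᗮ v
    exact Submodule.starProjection_eq_self_iff.2 this
  rw [h1, sub_self]

/-- the function whose critical points are studied -/
def fK (e p : E) (K : ℝ) (z : E) : ℝ := ⟪e, z⟫ + K / 2 * ⟪qp V (z - p), z - p⟫

lemma fK_grad (e p : E) (K : ℝ) (z : E) :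
    HasGradientAt (fK V e p K) (e + K • qp V (z - p)) z := by
  rw [hasGradientAt_iff_hasFDerivAt]
  have h1 : HasFDerivAt (fun z : E => ⟪e, z⟫) (innerSL ℝ e) z := (innerSL ℝ e).hasFDerivAt
  have h0 : HasFDerivAt (fun z : E => z - p) (ContinuousLinearMap.id ℝ E) z :=
    (hasFDerivAt_id z).sub_const p
  have h2 : HasFDerivAt (fun z : E => qp V (z - p)) (qp V) z := by
    have := (qp V).hasFDerivAt.comp z h0
    exact this
  have h3 := (h2.inner ℝ h0).const_mul (K / 2)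
  refine (h1.add h3).congr_fderiv ?_
  ext v
  have h4 : ⟪qp V v, z - p⟫ = ⟪qp V (z - p), v⟫ := by rw [qp_symm, real_inner_comm]
  show ⟪e, v⟫ + K / 2 * (⟪qp V (z - p), v⟫ + ⟪qp V v, z - p⟫) = ⟪e + K • qp V (z - p), v⟫
  rw [h4, inner_add_left, inner_smul_left]
  simp only [conj_trivial]
  ring

lemma fK_smooth (e p : E) (K : ℝ) : ContDiff ℝ ∞ (fK V e p K) := by
  unfold fK
  have h1 : ContDiff ℝ ∞ (fun z : E => ⟪e, z⟫) := (innerSL ℝ e).contDiff
  have h0 : ContDiff ℝ ∞ (fun z : E => z - p) := contDiff_id.sub contDiff_const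
  exact h1.add (contDiff_const.mul (((qp V).contDiff.comp h0).inner ℝ h0))

lemma fK_hess (e p : E) (K : ℝ) (z v : E) :
    fderiv ℝ (∇ (fK V e p K)) z v = K • qp V v := by
  have h1 : ∇ (fK V e p K) = fun z => e + K • qp V (z - p) := by
    funext y
    exact (fK_grad V e p K y).gradient
  have h0 : HasFDerivAt (fun z : E => z - p) (ContinuousLinearMap.id ℝ E) z :=
    (hasFDerivAt_id z).sub_const p
  have h2 : HasFDerivAt (fun z : E => qp V (z - p)) (qp V) z := by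
    have := (qp V).hasFDerivAt.comp z h0
    exact this
  have h3 : HasFDerivAt (fun z : E => e + K • qp V (z - p)) (K • qp V) z :=
    (h2.const_smul K).const_add e
  rw [h1, h3.fderiv]
  rfl

/-- a unit vector of `V`, if there is one -/
lemma exists_e : ∃ e ∈ V, (V = ⊥ ∧ e = 0) ∨ (V ≠ ⊥ ∧ ‖e‖ = 1) := by
  by_cases h : V = ⊥
  · exact ⟨0, V.zero_mem, Or.inl ⟨h, rfl⟩⟩
  · obtain ⟨v, hv, hv0⟩ := Submodule.exists_mem_ne_zero_of_ne_bot h
    refine ⟨‖v‖⁻¹ • v, V.smul_mem _ hv, Or.inr ⟨h, ?_⟩⟩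
    rw [norm_smul, norm_inv, norm_norm, inv_mul_cancel₀ (norm_ne_zero_iff.2 hv0)]

/-- two orthonormal vectors span a space of dimension at most two -/
lemma span_two (hV : finrank ℝ V ≤ 2) {v w : E} (hv : v ∈ V) (hw : w ∈ V) (hv1 : ‖v‖ = 1)
    (hw1 : ‖w‖ = 1) (hvw : ⟪v, w⟫ = 0) {x : E} (hx : x ∈ V) : x ∈ Submodule.span ℝ {v, w} := by
  have hli : LinearIndependent ℝ ![v, w] := by
    rw [LinearIndependent.pair_iff]
    intro a b hab
    have e3 : ⟪a • v + b • w, v⟫ = a := by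
      rw [inner_add_left, inner_smul_left, inner_smul_left, real_inner_self_eq_norm_sq, hv1,
        real_inner_comm, hvw]
      simp
    have e4 : ⟪a • v + b • w, w⟫ = b := by
      rw [inner_add_left, inner_smul_left, inner_smul_left, real_inner_self_eq_norm_sq, hw1, hvw]
      simp
    rw [hab, inner_zero_left] at e3 e4
    exact ⟨e3.symm, e4.symm⟩
  have h1 : finrank ℝ (Submodule.span ℝ (Set.range ![v, w])) = 2 := by
    rw [finrank_span_eq_card hli]
    simp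
  have h2 : Set.range ![v, w] = {v, w} := Matrix.range_cons_cons_empty v w _
  rw [h2] at h1
  have h3 : Submodule.span ℝ {v, w} ≤ V := by
    rw [Submodule.span_le]
    intro y hy
    rcases hy with rfl | rfl
    · exact hv
    · exact hw
  have h4 : Submodule.span ℝ {v, w} = V := Submodule.eq_of_le_of_finrank_le h3 (by rw [h1]; exact hV)
  rw [h4]
  exact hx

theorem planes {ρ : E → ℝ} (hρ : ContDiff ℝ ∞ ρ) (hreg : ∀ x, ρ x = 0 → ∇ ρ x ≠ 0)
    (hcomp : IsCompact {x | ρ x ≤ 0}) (hconn : IsConnected {x | ρ x ≤ 0})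
    (hL : Lifts {x | ρ x ≤ 0}) (hball : ¬IsBall E {x | ρ x ≤ 0}) (hV : finrank ℝ V ≤ 2) (p : E) :
    ∃ x, ρ x = 0 ∧ ∃ s : ℝ, 0 ≤ s ∧ ∇ ρ x ∈ Vᗮ ∧ x + s • ∇ ρ x - p ∈ V ∧ ∃ v w : E, ‖v‖ = 1 ∧
      ‖w‖ = 1 ∧ ⟪v, w⟫ = 0 ∧ ⟪∇ ρ x, v⟫ = 0 ∧ ⟪∇ ρ x, w⟫ = 0 ∧ ∀ a c : ℝ,
        ‖qp V (a • v + c • w)‖ ^ 2 +
          s * ⟪fderiv ℝ (∇ ρ) x (a • v + c • w), a • v + c • w⟫ ≤ 0 := by
  obtain ⟨e, heV, he⟩ := exists_e V
  have hqe : qp V e = 0 := (qp_zero_iff V e).2 heV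
  -- the critical points
  have hall : ∀ n : ℕ, ∃ (x : E) (s : ℝ) (v w : E), ρ x ≤ 0 ∧ 0 ≤ s ∧ s * ρ x = 0 ∧
      e + ((n:ℝ) + 1) • qp V (x - p) + s • ∇ ρ x = 0 ∧ ‖v‖ = 1 ∧ ‖w‖ = 1 ∧ ⟪v, w⟫ = 0 ∧
      s * ⟪∇ ρ x, v⟫ = 0 ∧ s * ⟪∇ ρ x, w⟫ = 0 ∧ ∀ a c : ℝ,
        ((n:ℝ) + 1) * ‖qp V (a • v + c • w)‖ ^ 2 +
          s * ⟪fderiv ℝ (∇ ρ) x (a • v + c • w), a • v + c • w⟫ ≤ 0 := by
    intro n
    obtain ⟨x, h1, s, h2, h3, h4, v, w, h5, h6, h7, h8, h9, h10⟩ :=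
      eu_crit2 hρ hreg hcomp hconn hL hball (fK_smooth V e p ((n:ℝ) + 1))
    rw [(fK_grad V e p ((n:ℝ) + 1) x).gradient] at h4
    refine ⟨x, s, v, w, h1, h2, h3, h4, h5, h6, h7, h8, h9, fun a c => ?_⟩
    have h11 := h10 a c
    rw [fK_hess, inner_smul_left, qp_inner] at h11
    exact h11
  choose x s v w h1 h2 h3 h4 h5 h6 h7 h8 h9 h10 using hall
  have hn0 : ∀ n : ℕ, (0:ℝ) < (n:ℝ) + 1 := fun n => by positivity
  -- the multiplier does not vanish
  have hs : ∀ n, 0 < s n := by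
    intro n
    refine lt_of_le_of_ne (h2 n) fun h0 => ?_
    have h4' := h4 n
    rw [← h0, zero_smul, add_zero] at h4'
    have he0 : ⟪e + ((n:ℝ) + 1) • qp V (x n - p), e⟫ = 0 := by rw [h4', inner_zero_left]
    rw [inner_add_left, inner_smul_left, qp_symm, hqe, inner_zero_right, mul_zero, add_zero,
      real_inner_self_eq_norm_sq] at he0
    rcases he with ⟨hV0, -⟩ | ⟨-, he1⟩
    · have h11 := h10 n 1 0
      rw [← h0, zero_mul, add_zero, one_smul, zero_smul, add_zero] at h11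
      have h12 : ‖qp V (v n)‖ ^ 2 ≤ 0 := by
        by_contra hc
        push Not at hc
        have := mul_pos (hn0 n) hc
        linarith
      have h13 : qp V (v n) = 0 := by
        have : ‖qp V (v n)‖ = 0 := by
          have := sq_nonneg ‖qp V (v n)‖
          have h14 : ‖qp V (v n)‖ ^ 2 = 0 := le_antisymm h12 this
          exact pow_eq_zero_iff (by norm_num) |>.1 h14
        exact norm_eq_zero.1 this
      rw [qp_zero_iff, hV0, Submodule.mem_bot] at h13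
      have := h5 n
      rw [h13, norm_zero] at this
      exact zero_ne_one this
    · rw [he1] at he0
      norm_num at he0
  have hx0 : ∀ n, ρ (x n) = 0 := fun n => (mul_eq_zero.1 (h3 n)).resolve_left (hs n).ne'
  have hv0 : ∀ n, ⟪∇ ρ (x n), v n⟫ = 0 := fun n => (mul_eq_zero.1 (h8 n)).resolve_left (hs n).ne'
  have hw0 : ∀ n, ⟪∇ ρ (x n), w n⟫ = 0 := fun n => (mul_eq_zero.1 (h9 n)).resolve_left (hs n).ne'
  have hgs : ContDiff ℝ ∞ (∇ ρ) := by
    unfold gradient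
    exact (InnerProductSpace.toDual ℝ E).symm.contDiff.comp (hρ.fderiv_right (m := ∞) (by simp))
  have hgc : Continuous (∇ ρ) := hgs.continuous
  have hKM : IsCompact {x | ρ x = 0} :=
    hcomp.of_isClosed_subset (isClosed_eq hρ.continuous continuous_const) fun x hx => le_of_eq hx
  -- a lower bound for the gradient on the boundary
  obtain ⟨m, hm, hm'⟩ : ∃ m > 0, ∀ y, ρ y = 0 → m ≤ ‖∇ ρ y‖ := by
    obtain ⟨y, hy, hymin⟩ := hKM.exists_isMinOn ⟨x 0, hx0 0⟩ (f := fun y => ‖∇ ρ y‖)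
      hgc.norm.continuousOn
    exact ⟨‖∇ ρ y‖, norm_pos_iff.2 (hreg y hy), fun z hz => isMinOn_iff.1 hymin z hz⟩
  -- an upper bound for the distance
  obtain ⟨C, hC⟩ := hKM.exists_bound_of_continuousOn (f := fun y => qp V (y - p))
    (by fun_prop)
  have he1 : ‖e‖ ≤ 1 := by
    rcases he with ⟨-, h⟩ | ⟨-, h⟩
    · rw [h, norm_zero]; exact zero_le_one
    · exact h.le
  set σ : ℕ → ℝ := fun n => s n / ((n:ℝ) + 1) with hσ
  have hsσ : ∀ n, s n = ((n:ℝ) + 1) * σ n := fun n => by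
    simp only [hσ]
    field_simp
  have hσ0 : ∀ n, 0 ≤ σ n := fun n => div_nonneg (h2 n) (hn0 n).le
  have heq : ∀ n : ℕ, ((n:ℝ) + 1)⁻¹ • e + qp V (x n - p) + σ n • ∇ ρ (x n) = 0 := by
    intro n
    have h := congrArg (fun z => ((n:ℝ) + 1)⁻¹ • z) (h4 n)
    simp only [smul_add, smul_zero, smul_smul] at h
    rw [inv_mul_cancel₀ (hn0 n).ne', one_smul] at h
    have h' : σ n = ((n:ℝ) + 1)⁻¹ * s n := by simp only [hσ]; rw [div_eq_inv_mul]
    rw [h']
    exact h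
  have hσC : ∀ n, σ n ≤ (1 + C) / m := by
    intro n
    rw [le_div_iff₀ hm]
    have h := heq n
    have h' : σ n • ∇ ρ (x n) = -(((n:ℝ) + 1)⁻¹ • e + qp V (x n - p)) := by
      rw [eq_neg_iff_add_eq_zero, add_comm]
      exact h
    have h'' : ‖σ n • ∇ ρ (x n)‖ ≤ 1 + C := by
      rw [h', norm_neg]
      refine (norm_add_le _ _).trans (add_le_add ?_ (hC _ (hx0 n)))
      rw [norm_smul, norm_inv, Real.norm_eq_abs, abs_of_pos (hn0 n)]
      have : ((n:ℝ) + 1)⁻¹ ≤ 1 := inv_le_one_of_one_le₀ (by linarith [Nat.cast_nonneg (α := ℝ) n])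
      calc ((n:ℝ) + 1)⁻¹ * ‖e‖ ≤ 1 * 1 := by gcongr
        _ = 1 := one_mul 1
    rw [norm_smul, Real.norm_eq_abs, abs_of_nonneg (hσ0 n)] at h''
    calc σ n * m ≤ σ n * ‖∇ ρ (x n)‖ := by
          exact mul_le_mul_of_nonneg_left (hm' _ (hx0 n)) (hσ0 n)
      _ ≤ 1 + C := h''
  -- the limits
  obtain ⟨x', hx'1, hxl⟩ := ultra_lim hKM hx0
  obtain ⟨t, ⟨ht0, -⟩, htl⟩ := ultra_lim (isCompact_Icc (a := (0:ℝ)) (b := (1 + C) / m))
    (s := σ) fun n => ⟨hσ0 n, hσC n⟩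
  obtain ⟨v', hv'1, hvl⟩ := ultra_lim (isCompact_sphere (0:E) 1) (s := v) fun n => by
    simpa using h5 n
  obtain ⟨w', hw'1, hwl⟩ := ultra_lim (isCompact_sphere (0:E) 1) (s := w) fun n => by
    simpa using h6 n
  have hv'n : ‖v'‖ = 1 := by simpa using hv'1
  have hw'n : ‖w'‖ = 1 := by simpa using hw'1
  have hinv : Tendsto (fun n : ℕ => ((n:ℝ) + 1)⁻¹) (hyperfilter ℕ : Filter ℕ) (𝓝 0) := by
    have := tendsto_one_div_add_atTop_nhds_zero_nat (𝕜 := ℝ)
    simp only [one_div] at this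
    exact this.mono_left Nat.hyperfilter_le_atTop
  have hgl : Tendsto (fun n => ∇ ρ (x n)) (hyperfilter ℕ : Filter ℕ) (𝓝 (∇ ρ x')) :=
    (hgc.tendsto x').comp hxl
  have hql : Tendsto (fun n => qp V (x n - p)) (hyperfilter ℕ : Filter ℕ)
      (𝓝 (qp V (x' - p))) := ((qp V).continuous.tendsto _).comp (hxl.sub_const p)
  have hlim : qp V (x' - p) + t • ∇ ρ x' = 0 := by
    have h := ((hinv.smul_const e).add hql).add (htl.smul hgl)
    have h' : Tendsto (fun n : ℕ => ((n:ℝ) + 1)⁻¹ • e + qp V (x n - p) + σ n • ∇ ρ (x n))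
        (hyperfilter ℕ : Filter ℕ) (𝓝 0) := by
      simp only [heq]
      exact tendsto_const_nhds
    have := tendsto_nhds_unique h h'
    rwa [zero_smul, zero_add] at this
  have hvw' : ⟪v', w'⟫ = 0 := by
    have h := hvl.inner hwl (𝕜 := ℝ)
    simp only [h7] at h
    exact (tendsto_nhds_unique h tendsto_const_nhds)
  have hgv : ⟪∇ ρ x', v'⟫ = 0 := by
    have h := hgl.inner hvl (𝕜 := ℝ)
    simp only [hv0] at h
    exact (tendsto_nhds_unique h tendsto_const_nhds)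
  have hgw : ⟪∇ ρ x', w'⟫ = 0 := by
    have h := hgl.inner hwl (𝕜 := ℝ)
    simp only [hw0] at h
    exact (tendsto_nhds_unique h tendsto_const_nhds)
  have hHc : Continuous (fderiv ℝ (∇ ρ)) := (hgs.fderiv_right (m := ∞) (by simp)).continuous
  have hsec : ∀ a c : ℝ, ‖qp V (a • v' + c • w')‖ ^ 2 +
      t * ⟪fderiv ℝ (∇ ρ) x' (a • v' + c • w'), a • v' + c • w'⟫ ≤ 0 := by
    intro a c
    have hu : Tendsto (fun n => a • v n + c • w n) (hyperfilter ℕ : Filter ℕ)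
        (𝓝 (a • v' + c • w')) := (hvl.const_smul a).add (hwl.const_smul c)
    have hq : Tendsto (fun n => ‖qp V (a • v n + c • w n)‖ ^ 2) (hyperfilter ℕ : Filter ℕ)
        (𝓝 (‖qp V (a • v' + c • w')‖ ^ 2)) :=
      ((((qp V).continuous.tendsto _).comp hu).norm).pow 2
    have hH : Tendsto (fun n => fderiv ℝ (∇ ρ) (x n) (a • v n + c • w n))
        (hyperfilter ℕ : Filter ℕ) (𝓝 (fderiv ℝ (∇ ρ) x' (a • v' + c • w'))) :=
      tendsto_clm ((hHc.tendsto x').comp hxl) hu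
    have h := hq.add (htl.mul (hH.inner hu (𝕜 := ℝ)))
    refine le_of_tendsto h (Filter.Eventually.of_forall fun n => ?_)
    have h11 := h10 n a c
    rw [hsσ n] at h11
    have h12 : ((n:ℝ) + 1) * (‖qp V (a • v n + c • w n)‖ ^ 2 +
        σ n * ⟪fderiv ℝ (∇ ρ) (x n) (a • v n + c • w n), a • v n + c • w n⟫) ≤ 0 := by
      rw [mul_add, ← mul_assoc]
      exact h11
    by_contra hc
    push Not at hc
    have := mul_pos (hn0 n) hc
    linarith
  have hmemV : x' + t • ∇ ρ x' - p ∈ V := by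
    have h : x' + t • ∇ ρ x' - p = (x' - p) - qp V (x' - p) := by
      have h' : t • ∇ ρ x' = -qp V (x' - p) := by
        rw [eq_neg_iff_add_eq_zero, add_comm]
        exact hlim
      rw [h']
      abel
    rw [h]
    exact sub_qp V _
  refine ⟨x', hx'1, t, ht0, ?_, hmemV, v', w', hv'n, hw'n, hvw', hgv, hgw, hsec⟩
  rcases ht0.eq_or_lt with h0 | hpos
  · -- the degenerate case
    have hq0 : ∀ a c : ℝ, a • v' + c • w' ∈ V := by
      intro a c
      have h := hsec a c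
      rw [← h0, zero_mul, add_zero] at h
      rw [← qp_zero_iff]
      have h14 : ‖qp V (a • v' + c • w')‖ ^ 2 = 0 := le_antisymm h (sq_nonneg _)
      exact norm_eq_zero.1 (pow_eq_zero_iff (by norm_num) |>.1 h14)
    have hv'V : v' ∈ V := by have := hq0 1 0; simpa using this
    have hw'V : w' ∈ V := by have := hq0 0 1; simpa using this
    rw [Submodule.mem_orthogonal']
    intro y hy
    have hy' := span_two V hV hv'V hw'V hv'n hw'n hvw' hy
    rw [Submodule.mem_span_pair] at hy'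
    obtain ⟨a, c, rfl⟩ := hy'
    rw [inner_add_right, inner_smul_right, inner_smul_right, hgv, hgw]
    simp
  · have h' : ∇ ρ x' = -(t⁻¹ • qp V (x' - p)) := by
      have h'' : t • ∇ ρ x' = -qp V (x' - p) := by
        rw [eq_neg_iff_add_eq_zero, add_comm]
        exact hlim
      rw [← smul_neg, ← h'', smul_smul, inv_mul_cancel₀ hpos.ne', one_smul]
    rw [h']
    exact Vᗮ.neg_mem (Vᗮ.smul_mem _ (qp_mem V _))

end Pool.Agent.H27.Sch
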